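import Pool.Agent.P4G.Ident
import Pool.Agent.RDF.NoGhost

/-!
The ghost identity for functions `ψ(u) u ^ e` modulo a power of `l`.
-/

namespace Pool.Agent.P4G

open Finset (range)
open Pool.Agent.LibH4 Pool.Agent.LibH4.FA Pool.Agent.Lib_helper5
open Pool.Agent.RDF (sum_range_zmod fz fz_cast δ bt two_half crt_sum)

/-- odd periodic functions lift to the integers -/
lemma exists_lift {M Q : ℕ} (hM : M % 2 = 1) (F : ℤ → ZMod M) (hper : ∀ x, F (x + Q) = F x)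
    (hodd : ∀ x, F (-x) = - F x) :
    ∃ f : ℤ → ℤ, (∀ x, f (x + Q) = f x) ∧ (∀ x, f (-x) = - f x) ∧ ∀ x, ((f x : ℤ) : ZMod M) = F x := by
  have : NeZero M := ⟨by omega⟩
  have h2 := two_half (Q := M) hM
  refine ⟨fun x => (((F x * (((M + 1) / 2 : ℕ) : ZMod M)).val : ℕ) : ℤ) -
    (((F (-x) * (((M + 1) / 2 : ℕ) : ZMod M)).val : ℕ) : ℤ), ?_, ?_, ?_⟩
  · intro x
    have e : F (-(x + Q)) = F (-x) := by
      rw [hodd, hper, hodd]
    simp only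
    rw [hper, e]
  · intro x
    simp only
    rw [neg_neg]
    ring
  · intro x
    push_cast
    rw [ZMod.natCast_zmod_val, ZMod.natCast_zmod_val, hodd]
    linear_combination (F x) * h2

/-- splitting a sum over a multiple of the period -/
lemma sum_blocks {M : Type*} [AddCommMonoid M] (N k : ℕ) (g : ℕ → M) :
    ∑ j ∈ range (N * k), g j = ∑ i ∈ range N, ∑ t ∈ range k, g (N * t + i) := by
  induction k with
  | zero => simp
  | succ k ih =>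
    rw [Nat.mul_succ, Finset.sum_range_add, ih]
    simp only [Finset.sum_range_succ, Finset.sum_add_distrib]

/-- expansion of a power -/
lemma pow_expand (c : ℤ) (i : ℤ) (e : ℕ) : ∃ D : ℤ, ∀ y : ℤ, ∃ s : ℤ,
    (c - (i + y) ^ 2) ^ e = (c - i ^ 2) ^ e + y * D + y ^ 2 * s := by
  induction e with
  | zero => exact ⟨0, fun y => ⟨0, by simp⟩⟩
  | succ e ih =>
    obtain ⟨D, hD⟩ := ih
    refine ⟨D * (c - i ^ 2) - 2 * i * (c - i ^ 2) ^ e, fun y => ?_⟩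
    obtain ⟨s, hs⟩ := hD y
    refine ⟨s * (c - i ^ 2) - (c - i ^ 2) ^ e - 2 * i * D - y * D - 2 * i * y * s - y ^ 2 * s, ?_⟩
    rw [pow_succ, hs]
    ring

/-- sums of powers over residues modulo a power of `l` -/
lemma sum_pow {l : ℕ} (hlo : l % 2 = 1) (c : ℤ) (e n : ℕ) : (l : ℤ) ^ (n + 1) ∣
    ∑ j ∈ range (l ^ (n + 1)), (c - (j : ℤ) ^ 2) ^ e
      - (l : ℤ) ^ n * ∑ j ∈ range l, (c - (j : ℤ) ^ 2) ^ e := by
  induction n with
  | zero => simp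
  | succ n ih =>
    have step : (l : ℤ) ^ (n + 2) ∣ ∑ j ∈ range (l ^ (n + 2)), (c - (j : ℤ) ^ 2) ^ e
        - l * ∑ j ∈ range (l ^ (n + 1)), (c - (j : ℤ) ^ 2) ^ e := by
      rw [pow_succ l (n + 1), sum_blocks, Finset.mul_sum, ← Finset.sum_sub_distrib]
      apply Finset.dvd_sum
      intro i _
      obtain ⟨D, hD⟩ := pow_expand c i e
      choose s hs using hD
      have e1 : ∀ t ∈ range l, (c - ((l ^ (n + 1) * t + i : ℕ) : ℤ) ^ 2) ^ e
          = (c - (i : ℤ) ^ 2) ^ e + (l : ℤ) ^ (n + 1) * (t * D) + (l : ℤ) ^ (n + 2) *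
            ((l : ℤ) ^ n * t ^ 2 * s ((l : ℤ) ^ (n + 1) * t)) := by
        intro t _
        have := hs ((l : ℤ) ^ (n + 1) * t)
        have e2 : ((l ^ (n + 1) * t + i : ℕ) : ℤ) = i + (l : ℤ) ^ (n + 1) * t := by
          push_cast; ring
        rw [e2, this]
        ring
      rw [Finset.sum_congr rfl e1, Finset.sum_add_distrib, Finset.sum_add_distrib,
        Finset.sum_const, Finset.card_range, ← Finset.mul_sum, ← Finset.mul_sum, ← Finset.sum_mul]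
      obtain ⟨k, hk⟩ : ∃ k : ℤ, ∑ t ∈ range l, (t : ℤ) = l * k := by
        refine ⟨((l - 1) / 2 : ℕ), ?_⟩
        have h1 := Finset.sum_range_id_mul_two l
        obtain ⟨h, hh⟩ : ∃ h, l = 2 * h + 1 := ⟨l / 2, by omega⟩
        have h2 : ∑ t ∈ range l, t = l * h := by
          have e3 : l * (l - 1) = l * h * 2 := by
            have : l - 1 = h * 2 := by omega
            rw [this]; ring
          omega
        have h3 : (l - 1) / 2 = h := by omega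
        rw [h3]
        have := congrArg (Nat.cast : ℕ → ℤ) h2
        push_cast at this
        exact this
      rw [hk]
      refine ⟨k * D + ∑ t ∈ range l, (l : ℤ) ^ n * t ^ 2 * s ((l : ℤ) ^ (n + 1) * t), ?_⟩
      rw [nsmul_eq_mul]
      ring
    obtain ⟨t, ht⟩ := ih
    obtain ⟨s, hs⟩ := step
    refine ⟨s + t, ?_⟩
    have e1 : (l : ℤ) ^ (n + 1 + 1) = l * l ^ (n + 1) := by ring
    have e2 : (l : ℤ) ^ (n + 2) = l * l ^ (n + 1) := by ring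
    rw [e2] at hs
    rw [e1]
    linear_combination hs + l * ht

/-- the distribution relation of the weight -/
lemma bt_blocks {N Q1 : ℕ} (hN : N % 2 = 1) (hQ : Q1 % 2 = 1) (g : ℕ → ℤ)
    (hg : ∀ x t, g (Q1 * t + x) = g x) :
    ∑ x ∈ range (Q1 * N), bt (Q1 * N) x * g x = ∑ x ∈ range Q1, bt Q1 x * g x := by
  rw [sum_blocks]
  apply Finset.sum_congr rfl
  intro x _
  simp only [hg]
  rw [← Finset.sum_mul]
  congr 1
  obtain ⟨h, rfl⟩ : ∃ h, N = 2 * h + 1 := ⟨N / 2, by omega⟩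
  have key : ∀ (C : ℤ) (h : ℕ), ∑ t ∈ range (2 * h + 1), (-1 : ℤ) ^ t * (C - 2 * Q1 * t)
      = C - 2 * h * Q1 := by
    intro C h
    induction h with
    | zero => simp
    | succ h ih =>
      rw [show 2 * (h + 1) + 1 = 2 * h + 1 + 1 + 1 by ring, Finset.sum_range_succ,
        Finset.sum_range_succ, ih]
      have e1 : (-1 : ℤ) ^ (2 * h + 1) = -1 := by rw [pow_succ, pow_mul]; simp
      have e2 : (-1 : ℤ) ^ (2 * h + 1 + 1) = 1 := by rw [pow_succ, e1]; norm_num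
      rw [e1, e2]
      push_cast
      ring
  have e : ∀ t ∈ range (2 * h + 1), bt (Q1 * (2 * h + 1)) (Q1 * t + x)
      = (-1) ^ x * ((-1 : ℤ) ^ t * (((Q1 * (2 * h + 1) : ℕ) - 2 * x : ℤ) - 2 * Q1 * t)) := by
    intro t _
    unfold bt
    have hodd : Odd Q1 := Nat.odd_iff.2 hQ
    rw [pow_add, pow_mul, hodd.neg_one_pow]
    push_cast
    ring
  rw [Finset.sum_congr rfl e, ← Finset.mul_sum, key]
  unfold bt
  push_cast
  ring

section

variable {l q0 n e : ℕ} {ψ : ℤ → ℤ}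

/-- the hypotheses on a family at level `n` -/
structure Fam (l q0 n e : ℕ) (ψ : ℤ → ℤ) : Prop where
  hl : l.Prime
  l2 : l ≠ 2
  hq : q0 % 2 = 1
  cop : Nat.Coprime q0 l
  per : ∀ x, ψ (x + q0) = ψ x
  odd : ∀ x, ψ (-x) * (-1) ^ e = - ψ x
  mul : ∀ x y, ((ψ (x * y) : ℤ) : ZMod (l ^ (n + 1))) = (ψ x : ℤ) * (ψ y : ℤ)
  zero : (l : ℤ) ^ (n + 1) ∣ Hs l q0 ψ (n + 1) e

/-- the period -/
def QN (l q0 n : ℕ) : ℕ := q0 * l ^ (n + 1)

/-- the function in the residue ring -/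
def FN (l n e : ℕ) (ψ : ℤ → ℤ) (u : ℤ) : ZMod (l ^ (n + 1)) :=
  (ψ u : ZMod (l ^ (n + 1))) * (u : ZMod (l ^ (n + 1))) ^ e

variable (h : Fam l q0 n e ψ)
include h

lemma Fam.lo : l % 2 = 1 := by
  rcases h.hl.eq_two_or_odd with h1 | h1
  · exact absurd h1 h.l2
  · exact h1

lemma Fam.Modd : (l ^ (n + 1)) % 2 = 1 := Nat.odd_iff.1 (Odd.pow (Nat.odd_iff.2 h.lo))

lemma Fam.Qodd : QN l q0 n % 2 = 1 :=
  Nat.odd_iff.1 (Odd.mul (Nat.odd_iff.2 h.hq) (Nat.odd_iff.2 h.Modd))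

lemma Fam.ne : NeZero (QN l q0 n) := ⟨by have := h.Qodd; omega⟩

lemma Fam.FN_mul (u v : ℤ) : FN l n e ψ (u * v) = FN l n e ψ u * FN l n e ψ v := by
  unfold FN
  rw [h.mul]
  push_cast
  ring

lemma Fam.FN_neg (u : ℤ) : FN l n e ψ (-u) = - FN l n e ψ u := by
  unfold FN
  have h1 := congrArg (Int.cast : ℤ → ZMod (l ^ (n + 1))) (h.odd u)
  push_cast at h1 ⊢
  have h2 : (-(u : ZMod (l ^ (n + 1)))) ^ e = (-1) ^ e * (u : ZMod (l ^ (n + 1))) ^ e := by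
    rw [← mul_pow, neg_one_mul]
  rw [h2]
  linear_combination ((u : ZMod (l ^ (n + 1))) ^ e) * h1

lemma Fam.ψper (x t : ℤ) : ψ (x + t * q0) = ψ x := by
  induction t using Int.induction_on with
  | zero => simp
  | succ i ih =>
    rw [show x + (i + 1 : ℤ) * q0 = (x + i * q0) + q0 by ring, h.per, ih]
  | pred i ih =>
    rw [← h.per (x + (-(i : ℤ) - 1) * q0),
      show x + (-(i : ℤ) - 1) * q0 + q0 = x + -(i : ℤ) * q0 by ring, ih]

lemma Fam.FN_per (u : ℤ) : FN l n e ψ (u + QN l q0 n) = FN l n e ψ u := by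
  unfold FN QN
  have e1 : ψ (u + ((q0 * l ^ (n + 1) : ℕ) : ℤ)) = ψ u := by
    have := h.ψper u (l ^ (n + 1))
    rw [← this]
    congr 1
    push_cast
    ring
  rw [e1]
  congr 2
  push_cast
  have h0 : ((l : ZMod (l ^ (n + 1))) ^ (n + 1)) = 0 := by
    have := ZMod.natCast_self (l ^ (n + 1))
    push_cast at this
    exact this
  rw [h0, mul_zero, add_zero]

end

/-- the function on residues -/
def FZ (l q0 n e : ℕ) (ψ : ℤ → ℤ) (z : ZMod (QN l q0 n)) : ZMod (l ^ (n + 1)) :=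
  FN l n e ψ (z.val : ℤ)

section

variable {l q0 n e : ℕ} {ψ : ℤ → ℤ} (h : Fam l q0 n e ψ)

include h in
lemma Fam.FZ_cast (u : ℤ) : FZ l q0 n e ψ (u : ZMod (QN l q0 n)) = FN l n e ψ u := by
  have := h.ne
  unfold FZ
  have h1 : ((((u : ZMod (QN l q0 n)).val : ℕ) : ℤ) : ZMod (QN l q0 n)) = (u : ZMod (QN l q0 n)) := by
    push_cast; exact ZMod.natCast_zmod_val _
  rw [ZMod.intCast_eq_intCast_iff_dvd_sub] at h1
  obtain ⟨t, ht⟩ := h1
  have hperT : ∀ (x t : ℤ), FN l n e ψ (x + t * QN l q0 n) = FN l n e ψ x := by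
    intro x t
    induction t using Int.induction_on with
    | zero => simp
    | succ i ih =>
      rw [show x + (i + 1 : ℤ) * QN l q0 n = (x + i * QN l q0 n) + QN l q0 n by ring, h.FN_per, ih]
    | pred i ih =>
      rw [← h.FN_per (x + (-(i : ℤ) - 1) * QN l q0 n),
        show x + (-(i : ℤ) - 1) * QN l q0 n + QN l q0 n = x + -(i : ℤ) * QN l q0 n by ring, ih]
  have : (((u : ZMod (QN l q0 n)).val : ℕ) : ℤ) = u + (-t) * QN l q0 n := by linear_combination -ht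
  rw [this, hperT]

include h in
lemma Fam.FZ_mul (a : ℤ) (z : ZMod (QN l q0 n)) :
    FZ l q0 n e ψ ((a : ZMod (QN l q0 n)) * z) = FN l n e ψ a * FZ l q0 n e ψ z := by
  obtain ⟨u, rfl⟩ := ZMod.intCast_surjective z
  rw [← Int.cast_mul, h.FZ_cast, h.FZ_cast, h.FN_mul]

include h in
lemma Fam.FZ_neg (z : ZMod (QN l q0 n)) : FZ l q0 n e ψ (-z) = - FZ l q0 n e ψ z := by
  obtain ⟨u, rfl⟩ := ZMod.intCast_surjective z
  rw [← Int.cast_neg, h.FZ_cast, h.FZ_cast, h.FN_neg]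

end

/-- the central sum -/
noncomputable def CC (l q0 n e : ℕ) (ψ : ℤ → ℤ) [NeZero (QN l q0 n)] (D : ℤ) : ZMod (l ^ (n + 1)) :=
  ∑ x : ZMod (QN l q0 n), ∑ u : ZMod (QN l q0 n),
    FZ l q0 n e ψ ((D : ZMod (QN l q0 n)) * x ^ 2 - u ^ 2) * ((δ x : ℤ) : ZMod (l ^ (n + 1)))

section

variable {l q0 n e : ℕ} {ψ : ℤ → ℤ} (h : Fam l q0 n e ψ) [NeZero (QN l q0 n)]

/-- an affine change of variable -/
def eqA {Q : ℕ} (c : (ZMod Q)ˣ) (b : ZMod Q) : ZMod Q ≃ ZMod Q where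
  toFun y := (c : ZMod Q) * y + b
  invFun u := ((c⁻¹ : (ZMod Q)ˣ) : ZMod Q) * (u - b)
  left_inv y := by simp [← mul_assoc]
  right_inv u := by simp [← mul_assoc]

/-- `2` is a unit -/
lemma two_unit {Q : ℕ} (hQ : Q % 2 = 1) : IsUnit (2 : ZMod Q) := by
  have := (ZMod.isUnit_iff_coprime 2 Q).2 (Nat.coprime_two_left.2 (Nat.odd_iff.2 hQ))
  exact_mod_cast this

variable {f : ℤ → ℤ} (hf : ∀ x, ((f x : ℤ) : ZMod (l ^ (n + 1))) = FN l n e ψ x)

include hf in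
omit [NeZero (QN l q0 n)] in
lemma fz_castR (z : ZMod (QN l q0 n)) :
    ((fz (QN l q0 n) f z : ℤ) : ZMod (l ^ (n + 1))) = FZ l q0 n e ψ z := by
  unfold fz FZ
  rw [hf]

include h hf in
lemma G0_cast (m : ℤ) : FN l n e ψ 4 *
    ((GS (QN l q0 n) f m δ (fun x _ => x) : ℤ) : ZMod (l ^ (n + 1))) = CC l q0 n e ψ (1 + 4 * m) := by
  obtain ⟨c2, hc2⟩ := two_unit h.Qodd
  unfold GS CC
  push_cast
  rw [Finset.mul_sum]
  apply Finset.sum_congr rfl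
  intro x _
  rw [Finset.mul_sum, ← Equiv.sum_comp (eqA c2 x) (fun u => FZ l q0 n e ψ
    ((1 + 4 * (m : ZMod (QN l q0 n))) * x ^ 2 - u ^ 2) * ((δ x : ℤ) : ZMod (l ^ (n + 1))))]
  apply Finset.sum_congr rfl
  intro y _
  rw [fz_castR hf, ← mul_assoc, ← h.FZ_mul]
  simp only [eqA, Equiv.coe_fn_mk]
  rw [hc2]
  congr 2
  unfold Nm
  push_cast
  ring

include h hf in
lemma G2_cast (m : ℤ) (hD : IsUnit ((1 + 4 * m : ℤ) : ZMod (QN l q0 n))) :
    FN l n e ψ (4 * (-(1 + 4 * m))) *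
    ((GS (QN l q0 n) f m δ (fun x y => x + 2 * y) : ℤ) : ZMod (l ^ (n + 1)))
      = CC l q0 n e ψ (1 + 4 * m) := by
  obtain ⟨c2, hc2⟩ := two_unit h.Qodd
  obtain ⟨cD, hcD⟩ := hD
  have e1 : FN l n e ψ (4 * (-(1 + 4 * m))) *
    ((GS (QN l q0 n) f m δ (fun x y => x + 2 * y) : ℤ) : ZMod (l ^ (n + 1)))
      = ∑ x : ZMod (QN l q0 n), ∑ u : ZMod (QN l q0 n),
        FZ l q0 n e ψ (((1 + 4 * m : ℤ) : ZMod (QN l q0 n)) * u ^ 2
          - ((cD : ZMod (QN l q0 n)) * x) ^ 2) * ((δ u : ℤ) : ZMod (l ^ (n + 1))) := by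
    unfold GS
    push_cast
    rw [Finset.mul_sum]
    apply Finset.sum_congr rfl
    intro x _
    rw [Finset.mul_sum, ← Equiv.sum_comp (eqA c2 x) (fun u => FZ l q0 n e ψ
      ((1 + 4 * (m : ZMod (QN l q0 n))) * u ^ 2 - ((cD : ZMod (QN l q0 n)) * x) ^ 2)
      * ((δ u : ℤ) : ZMod (l ^ (n + 1))))]
    apply Finset.sum_congr rfl
    intro y _
    rw [fz_castR hf, ← mul_assoc, ← h.FZ_mul]
    simp only [eqA, Equiv.coe_fn_mk]
    rw [hc2, hcD]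
    have e2 : 2 * y + x = x + 2 * y := by ring
    rw [e2]
    congr 2
    unfold Nm
    push_cast
    ring
  rw [e1, Finset.sum_comm]
  unfold CC
  apply Finset.sum_congr rfl
  intro u _
  exact Equiv.sum_comp (Units.mulLeft cD) (fun z => FZ l q0 n e ψ
    (((1 + 4 * m : ℤ) : ZMod (QN l q0 n)) * u ^ 2 - z ^ 2) * ((δ u : ℤ) : ZMod (l ^ (n + 1))))

include h hf in
lemma Gy_cast (m : ℤ) (hm : IsUnit ((m : ℤ) : ZMod (QN l q0 n))) :
    FN l n e ψ (4 * m) *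
    ((GS (QN l q0 n) f m δ (fun _ y => y) : ℤ) : ZMod (l ^ (n + 1)))
      = - CC l q0 n e ψ (1 + 4 * m) := by
  obtain ⟨c2, hc2⟩ := two_unit h.Qodd
  obtain ⟨cm, hcm⟩ := hm
  unfold GS CC
  push_cast
  rw [Finset.sum_comm, Finset.mul_sum, ← Finset.sum_neg_distrib]
  apply Finset.sum_congr rfl
  intro y _
  rw [Finset.mul_sum, ← Finset.sum_neg_distrib,
    ← Equiv.sum_comp (eqA (c2 * cm) (-y)) (fun u => -(FZ l q0 n e ψ
      ((1 + 4 * (m : ZMod (QN l q0 n))) * y ^ 2 - u ^ 2) * ((δ y : ℤ) : ZMod (l ^ (n + 1)))))]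
  apply Finset.sum_congr rfl
  intro x _
  rw [fz_castR hf, ← mul_assoc, ← h.FZ_mul, ← neg_mul, ← h.FZ_neg]
  simp only [eqA, Equiv.coe_fn_mk]
  rw [Units.val_mul, hc2, hcm]
  congr 2
  unfold Nm
  push_cast
  ring

include h hf in
lemma Gxy_cast (m : ℤ) (hm : IsUnit ((m : ℤ) : ZMod (QN l q0 n))) :
    FN l n e ψ (4 * m) *
    ((GS (QN l q0 n) f m δ (fun x y => x + y) : ℤ) : ZMod (l ^ (n + 1)))
      = - CC l q0 n e ψ (1 + 4 * m) := by
  obtain ⟨c2, hc2⟩ := two_unit h.Qodd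
  obtain ⟨cm, hcm⟩ := hm
  have e1 : ((GS (QN l q0 n) f m δ (fun x y => x + y) : ℤ) : ZMod (l ^ (n + 1)))
      = ∑ z : ZMod (QN l q0 n), ∑ y : ZMod (QN l q0 n),
        FZ l q0 n e ψ (-(Nm (m : ZMod (QN l q0 n)) (z - y) y)) * ((δ z : ℤ) : ZMod (l ^ (n + 1))) := by
    unfold GS
    push_cast
    rw [Finset.sum_comm]
    conv_rhs => rw [Finset.sum_comm]
    apply Finset.sum_congr rfl
    intro y _
    rw [← Equiv.sum_comp (Equiv.addRight y) (fun z =>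
      FZ l q0 n e ψ (-(Nm (m : ZMod (QN l q0 n)) (z - y) y)) * ((δ z : ℤ) : ZMod (l ^ (n + 1))))]
    apply Finset.sum_congr rfl
    intro x _
    simp only [Equiv.coe_addRight, add_sub_cancel_right]
    rw [fz_castR hf]
  rw [e1]
  unfold CC
  rw [Finset.mul_sum, ← Finset.sum_neg_distrib]
  apply Finset.sum_congr rfl
  intro z _
  rw [Finset.mul_sum, ← Finset.sum_neg_distrib,
    ← Equiv.sum_comp (eqA (c2 * cm) (-((2 * (m : ZMod (QN l q0 n)) + 1) * z)))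
      (fun u => -(FZ l q0 n e ψ
      (((1 + 4 * m : ℤ) : ZMod (QN l q0 n)) * z ^ 2 - u ^ 2) * ((δ z : ℤ) : ZMod (l ^ (n + 1)))))]
  apply Finset.sum_congr rfl
  intro y _
  rw [← mul_assoc, ← h.FZ_mul, ← neg_mul, ← h.FZ_neg]
  simp only [eqA, Equiv.coe_fn_mk]
  rw [Units.val_mul, hc2, hcm]
  congr 2
  unfold Nm
  push_cast
  ring

/-- the reduced inner sum -/
def AA (l q0 e : ℕ) (ψ : ℤ → ℤ) (D : ℤ) (x : ℕ) : ℤ :=
  (∑ i ∈ range q0, ψ (D * (x : ℤ) ^ 2 - (i : ℤ) ^ 2)) * ∑ j ∈ range l, (D * (x : ℤ) ^ 2 - (j : ℤ) ^ 2) ^ e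

/-- the reduced central sum -/
def CR (l q0 e : ℕ) (ψ : ℤ → ℤ) (D : ℤ) : ℤ :=
  ∑ x ∈ range (q0 * l), bt (q0 * l) x * AA l q0 e ψ D x

include h in
lemma inner_sum (D : ℤ) (x : ℕ) : ∑ u : ZMod (QN l q0 n),
    FZ l q0 n e ψ ((D : ZMod (QN l q0 n)) * (x : ZMod (QN l q0 n)) ^ 2 - u ^ 2)
      = (((l : ℤ) ^ n * AA l q0 e ψ D x : ℤ) : ZMod (l ^ (n + 1))) := by
  rw [← sum_range_zmod (fun u : ZMod (QN l q0 n) =>
    FZ l q0 n e ψ ((D : ZMod (QN l q0 n)) * (x : ZMod (QN l q0 n)) ^ 2 - u ^ 2))]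
  have e1 : ∀ u ∈ range (QN l q0 n),
      FZ l q0 n e ψ ((D : ZMod (QN l q0 n)) * (x : ZMod (QN l q0 n)) ^ 2 - (u : ZMod (QN l q0 n)) ^ 2)
      = (((ψ (D * (x : ℤ) ^ 2 - (((u % q0 : ℕ) : ℤ)) ^ 2) : ℤ)) : ZMod (l ^ (n + 1))) *
        ((D * (x : ℤ) ^ 2 - (((u % l ^ (n + 1) : ℕ) : ℤ)) ^ 2 : ℤ) : ZMod (l ^ (n + 1))) ^ e := by
    intro u _
    have e2 : ((D : ZMod (QN l q0 n)) * (x : ZMod (QN l q0 n)) ^ 2 - (u : ZMod (QN l q0 n)) ^ 2)
        = ((D * (x : ℤ) ^ 2 - (u : ℤ) ^ 2 : ℤ) : ZMod (QN l q0 n)) := by push_cast; ring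
    rw [e2, h.FZ_cast]
    unfold FN
    congr 1
    · congr 1
      have hu : ((u % q0 : ℕ) : ℤ) = u - q0 * ((u / q0 : ℕ) : ℤ) := by
        have := Nat.mod_add_div u q0
        have h2 := congrArg (Nat.cast : ℕ → ℤ) this
        push_cast at h2
        push_cast
        linarith
      rw [hu, ← h.ψper (D * (x : ℤ) ^ 2 - (u : ℤ) ^ 2)
        (2 * u * ((u / q0 : ℕ) : ℤ) - q0 * ((u / q0 : ℕ) : ℤ) ^ 2)]
      congr 1
      ring
    · congr 1
      rw [Int.cast_sub, Int.cast_sub, Int.cast_pow, Int.cast_pow, Int.cast_natCast,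
        Int.cast_natCast, ZMod.natCast_mod]
  rw [Finset.sum_congr rfl e1]
  unfold QN
  have hq0 : 0 < q0 := by have := h.hq; omega
  rw [crt_sum hq0 (pow_pos h.hl.pos _) (Nat.Coprime.pow_right _ h.cop)
    (fun i => ((ψ (D * (x : ℤ) ^ 2 - (i : ℤ) ^ 2) : ℤ) : ZMod (l ^ (n + 1))))
    (fun j => ((D * (x : ℤ) ^ 2 - (j : ℤ) ^ 2 : ℤ) : ZMod (l ^ (n + 1))) ^ e)]
  have h2 := sum_pow h.lo (D * (x : ℤ) ^ 2) e n
  have h3 : ∑ j ∈ range (l ^ (n + 1)), ((D * (x : ℤ) ^ 2 - (j : ℤ) ^ 2 : ℤ) : ZMod (l ^ (n + 1))) ^ e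
      = (((l : ℤ) ^ n * ∑ j ∈ range l, (D * (x : ℤ) ^ 2 - (j : ℤ) ^ 2) ^ e : ℤ) : ZMod (l ^ (n + 1))) := by
    have h4 : ((∑ j ∈ range (l ^ (n + 1)), (D * (x : ℤ) ^ 2 - (j : ℤ) ^ 2) ^ e
        - (l : ℤ) ^ n * ∑ j ∈ range l, (D * (x : ℤ) ^ 2 - (j : ℤ) ^ 2) ^ e : ℤ) :
          ZMod (l ^ (n + 1))) = 0 := by
      rw [ZMod.intCast_zmod_eq_zero_iff_dvd]
      push_cast
      exact h2
    rw [Int.cast_sub, sub_eq_zero] at h4
    rw [← h4, Int.cast_sum]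
    apply Finset.sum_congr rfl
    intro j _
    rw [Int.cast_pow]
  rw [h3]
  unfold AA
  push_cast
  ring

include h in
/-- **the central sum** -/
theorem CC_eq (D : ℤ) : CC l q0 n e ψ D = (((l : ℤ) ^ n * CR l q0 e ψ D : ℤ) : ZMod (l ^ (n + 1))) := by
  have hQ0 : 0 < QN l q0 n := Nat.pos_of_ne_zero (NeZero.ne _)
  have outer : CC l q0 n e ψ D = (((l : ℤ) ^ n * ∑ x ∈ range (QN l q0 n), bt (QN l q0 n) x *
      AA l q0 e ψ D x : ℤ) : ZMod (l ^ (n + 1))) := by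
    unfold CC
    rw [← sum_range_zmod (fun x : ZMod (QN l q0 n) => ∑ u : ZMod (QN l q0 n),
      FZ l q0 n e ψ ((D : ZMod (QN l q0 n)) * x ^ 2 - u ^ 2) * ((δ x : ℤ) : ZMod (l ^ (n + 1))))]
    rw [Finset.mul_sum, Int.cast_sum]
    apply Finset.sum_congr rfl
    intro x hx
    rw [← Finset.sum_mul, inner_sum h D x]
    have e1 : δ (x : ZMod (QN l q0 n)) = bt (QN l q0 n) x := by
      unfold δ
      rw [ZMod.val_cast_of_lt (Finset.mem_range.1 hx)]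
    rw [e1, ← Int.cast_mul]
    congr 1
    ring
  rw [outer]
  -- only residues modulo `l` matter
  have red : ∀ y z : ℤ, (l : ℤ) ∣ z - y → (((l : ℤ) ^ n * y : ℤ) : ZMod (l ^ (n + 1)))
      = (((l : ℤ) ^ n * z : ℤ) : ZMod (l ^ (n + 1))) := by
    intro y z hyz
    rw [ZMod.intCast_eq_intCast_iff_dvd_sub]
    obtain ⟨t, ht⟩ := hyz
    refine ⟨t, ?_⟩
    push_cast
    rw [← mul_sub, ht]
    ring
  apply red
  -- reduction of the weighted sum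
  have : Fact l.Prime := ⟨h.hl⟩
  have hl0 : 0 < l := h.hl.pos
  have hg : ∀ x t : ℕ, (AA l q0 e ψ D (q0 * l * t + x) % l) = AA l q0 e ψ D x % l := by
    intro x t
    apply Int.ModEq.symm
    rw [← ZMod.intCast_eq_intCast_iff]
    unfold AA
    push_cast
    congr 1
    · apply Finset.sum_congr rfl
      intro i _
      congr 1
      rw [← h.ψper (D * (x : ℤ) ^ 2 - (i : ℤ) ^ 2)
        (D * (2 * l * t * x + q0 * (l * t) ^ 2))]
      congr 1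
      push_cast
      ring
    · apply Finset.sum_congr rfl
      intro j _
      rw [ZMod.natCast_self]
      ring
  have h1 := bt_blocks (N := l ^ n) (Q1 := q0 * l)
    (Nat.odd_iff.1 (Odd.pow (Nat.odd_iff.2 h.lo)))
    (Nat.odd_iff.1 (Odd.mul (Nat.odd_iff.2 h.hq) (Nat.odd_iff.2 h.lo)))
    (fun x => AA l q0 e ψ D x % l) hg
  have hQ : q0 * l * l ^ n = QN l q0 n := by unfold QN; ring
  rw [hQ] at h1
  have h2 : ∀ (W N : ℕ), (l : ℤ) ∣ ∑ x ∈ range N, bt W x * AA l q0 e ψ D x -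
      ∑ x ∈ range N, bt W x * (AA l q0 e ψ D x % l) := by
    intro W N
    rw [← Finset.sum_sub_distrib]
    apply Finset.dvd_sum
    intro x _
    rw [← mul_sub]
    refine Dvd.dvd.mul_left ?_ _
    have := Int.emod_add_mul_ediv (AA l q0 e ψ D x) l
    exact ⟨AA l q0 e ψ D x / l, by linarith⟩
  obtain ⟨s, hs⟩ := h2 (QN l q0 n) (QN l q0 n)
  obtain ⟨t, ht⟩ := h2 (q0 * l) (q0 * l)
  unfold CR
  refine ⟨t - s, ?_⟩
  rw [h1] at hs
  linear_combination ht - hs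

end

end Pool.Agent.P4G
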