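import Pool.Agent.P4G.Line

/-!
The two families at the prime thirteen.
-/

namespace Pool.Agent.P4G

open Finset (range)
open Pool.Agent.LibH4 Pool.Agent.LibH4.FA Pool.Agent.Lib_helper5
open Pool.Agent.RDF (sum_range_zmod fz fz_cast δ bt two_half crt_sum T7 T7_mul T7_neg)

/-- the quadratic character modulo five -/
def T5 (x : ZMod 5) : ℤ := (![0, 1, -1, -1, 1] : Fin 5 → ℤ) x

/-- the logarithm of the cubic character modulo seven -/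
def lg7 (x : ZMod 7) : ℕ := (![0, 0, 2, 1, 1, 2, 0] : Fin 7 → ℕ) x

/-- the cubic character modulo seven, `w` a cube root of unity -/
def C7 (w : ℤ) (x : ZMod 7) : ℤ := if x = 0 then 0 else w ^ lg7 x

lemma T5_mul : ∀ x y : ZMod 5, T5 (x * y) = T5 x * T5 y := by decide
lemma T5_neg : ∀ x : ZMod 5, T5 (-x) = T5 x := by decide
lemma lg7_mul : ∀ x y : ZMod 7, x ≠ 0 → y ≠ 0 → lg7 (x * y) = (lg7 x + lg7 y) % 3 := by decide
lemma lg7_neg : ∀ x : ZMod 7, lg7 (-x) = lg7 x := by decide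

lemma C7_neg (w : ℤ) (x : ZMod 7) : C7 w (-x) = C7 w x := by
  unfold C7
  rw [lg7_neg]
  simp only [neg_eq_zero]

lemma C7_mul {M : ℕ} {w : ℤ} (hw : ((w : ℤ) : ZMod M) ^ 2 + w + 1 = 0) (x y : ZMod 7) :
    ((C7 w (x * y) : ℤ) : ZMod M) = (C7 w x : ℤ) * (C7 w y : ℤ) := by
  have h3 : ((w : ℤ) : ZMod M) ^ 3 = 1 := by linear_combination ((w : ZMod M) - 1) * hw
  have : Fact (Nat.Prime 7) := ⟨by norm_num⟩
  unfold C7
  by_cases hx : x = 0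
  · simp [hx]
  by_cases hy : y = 0
  · simp [hy]
  rw [if_neg hx, if_neg hy, if_neg (mul_ne_zero hx hy), lg7_mul x y hx hy]
  push_cast
  rw [← pow_add]
  conv_rhs => rw [← Nat.div_add_mod (lg7 x + lg7 y) 3, pow_add, pow_mul, h3, one_pow, one_mul]

/-- the first family -/
def ψ1 (w u : ℤ) : ℤ := T5 (u : ZMod 5) * C7 w (u : ZMod 7)
/-- the second family -/
def ψ2 (w u : ℤ) : ℤ := T5 (u : ZMod 5) * (T7 (u : ZMod 7) * C7 w (u : ZMod 7))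

lemma cast5 (u : ℤ) : (((u + (35 : ℕ) : ℤ)) : ZMod 5) = (u : ZMod 5) := by
  push_cast
  rw [show (35 : ZMod 5) = 0 by decide, add_zero]
lemma cast7 (u : ℤ) : (((u + (35 : ℕ) : ℤ)) : ZMod 7) = (u : ZMod 7) := by
  push_cast
  rw [show (35 : ZMod 7) = 0 by decide, add_zero]

lemma ψ1_per (w u : ℤ) : ψ1 w (u + (35 : ℕ)) = ψ1 w u := by
  unfold ψ1
  rw [cast5, cast7]
lemma ψ2_per (w u : ℤ) : ψ2 w (u + (35 : ℕ)) = ψ2 w u := by
  unfold ψ2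
  rw [cast5, cast7]

lemma ψ1_neg (w u : ℤ) : ψ1 w (-u) = ψ1 w u := by
  unfold ψ1
  rw [Int.cast_neg, Int.cast_neg, T5_neg, C7_neg]
lemma ψ2_neg (w u : ℤ) : ψ2 w (-u) = - ψ2 w u := by
  unfold ψ2
  rw [Int.cast_neg, Int.cast_neg, T5_neg, C7_neg, T7_neg]
  ring

lemma ψ1_mul {M : ℕ} {w : ℤ} (hw : ((w : ℤ) : ZMod M) ^ 2 + w + 1 = 0) (u v : ℤ) :
    ((ψ1 w (u * v) : ℤ) : ZMod M) = (ψ1 w u : ℤ) * (ψ1 w v : ℤ) := by
  unfold ψ1
  simp only [Int.cast_mul, T5_mul, C7_mul hw]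
  ring
lemma ψ2_mul {M : ℕ} {w : ℤ} (hw : ((w : ℤ) : ZMod M) ^ 2 + w + 1 = 0) (u v : ℤ) :
    ((ψ2 w (u * v) : ℤ) : ZMod M) = (ψ2 w u : ℤ) * (ψ2 w v : ℤ) := by
  unfold ψ2
  simp only [Int.cast_mul, T5_mul, T7_mul, C7_mul hw]
  ring

/-- only `w` modulo thirteen matters modulo thirteen -/
lemma C7_mod {w : ℤ} (hw : w % 13 = 3) (x : ZMod 7) :
    ((C7 w x : ℤ) : ZMod 13) = (C7 3 x : ℤ) := by
  have h : ((w : ℤ) : ZMod 13) = ((3 : ℤ) : ZMod 13) := by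
    rw [ZMod.intCast_eq_intCast_iff_dvd_sub]
    exact ⟨-(w / 13), by push_cast; omega⟩
  unfold C7
  split_ifs
  · rfl
  · rw [Int.cast_pow, Int.cast_pow, h]

lemma ψ1_mod {w : ℤ} (hw : w % 13 = 3) (u : ℤ) : ((ψ1 w u : ℤ) : ZMod 13) = (ψ1 3 u : ℤ) := by
  unfold ψ1
  rw [Int.cast_mul, Int.cast_mul, C7_mod hw]
lemma ψ2_mod {w : ℤ} (hw : w % 13 = 3) (u : ℤ) : ((ψ2 w u : ℤ) : ZMod 13) = (ψ2 3 u : ℤ) := by
  unfold ψ2
  rw [Int.cast_mul, Int.cast_mul, Int.cast_mul, Int.cast_mul, C7_mod hw]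

lemma Hs_mod {ψ ψ' : ℤ → ℤ} (h : ∀ u, ((ψ u : ℤ) : ZMod 13) = (ψ' u : ℤ)) (q0 v m : ℕ) :
    ((Hs 13 q0 ψ v m : ℤ) : ZMod 13) = (Hs 13 q0 ψ' v m : ℤ) := by
  unfold Hs
  push_cast
  apply Finset.sum_congr rfl
  intro r _
  rw [h]

lemma DD_mod' {ψ ψ' : ℤ → ℤ} (h : ∀ u, ((ψ u : ℤ) : ZMod 13) = (ψ' u : ℤ)) (q0 v m : ℕ) :
    ((DD 13 q0 ψ v m : ℤ) : ZMod 13) = (DD 13 q0 ψ' v m : ℤ) := by
  unfold DD
  push_cast
  apply Finset.sum_congr rfl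
  intro r _
  rw [h]

lemma base1 : (Hs 13 35 (ψ1 3) 1 7) % 13 = 0 := by decide +kernel
lemma base2 : (Hs 13 35 (ψ2 3) 1 8) % 13 = 0 := by decide +kernel
lemma der1 : (DD 13 35 (ψ1 3) 2 7) % 13 ≠ 0 := by decide +kernel
lemma der2 : (DD 13 35 (ψ2 3) 2 8) % 13 ≠ 0 := by decide +kernel

/-- cube roots of unity modulo powers of thirteen -/
lemma exists_w (n : ℕ) : ∃ w : ℤ, w % 13 = 3 ∧ (13 : ℤ) ^ (n + 1) ∣ w ^ 2 + w + 1 := by
  induction n with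
  | zero => exact ⟨3, rfl, by norm_num⟩
  | succ n ih =>
    obtain ⟨w, hw, c, hc⟩ := ih
    obtain ⟨v, hv⟩ : ∃ v, w = 13 * v + 3 := ⟨w / 13, by omega⟩
    refine ⟨w + 13 ^ (n + 1) * (-2 * c), ?_, ?_⟩
    · have e : w + 13 ^ (n + 1) * (-2 * c) = w + 13 * (13 ^ n * (-2 * c)) := by ring
      rw [e, Int.add_mul_emod_self_left]
      exact hw
    · obtain ⟨z, hz⟩ : ∃ z : ℤ, z = 13 ^ n := ⟨_, rfl⟩
      refine ⟨-4 * c * v - c + 4 * z * c ^ 2, ?_⟩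
      have e1 : (13 : ℤ) ^ (n + 1) = 13 * z := by rw [hz]; ring
      have e2 : (13 : ℤ) ^ (n + 1 + 1) = 169 * z := by rw [hz]; ring
      rw [e1] at hc ⊢
      rw [e2]
      rw [hv] at hc ⊢
      linear_combination hc

lemma prime13 : Nat.Prime 13 := by norm_num

/-- the first family at level `n` -/
theorem exists_fam1 (n : ℕ) {w : ℤ} (hw : w % 13 = 3) (hwn : (13 : ℤ) ^ (n + 1) ∣ w ^ 2 + w + 1) :
    ∃ e, e % 12 = 7 ∧ Fam 13 35 n e (ψ1 w) := by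
  have odd7 : ∀ x, ψ1 w (-x) * (-1) ^ 7 = - ψ1 w x := by
    intro x
    rw [ψ1_neg]
    norm_num
  have hb : ((13 : ℕ) : ℤ) ∣ Hs 13 35 (ψ1 w) 1 7 := by
    have h1 := Hs_mod (ψ1_mod hw) 35 1 7
    have h2 : ((Hs 13 35 (ψ1 3) 1 7 : ℤ) : ZMod 13) = 0 := by
      rw [ZMod.intCast_zmod_eq_zero_iff_dvd]
      have := base1
      push_cast
      omega
    rw [h2] at h1
    exact (ZMod.intCast_zmod_eq_zero_iff_dvd _ 13).1 h1
  have hD : ¬ ((13 : ℕ) : ℤ) ∣ DD 13 35 (ψ1 w) 2 7 := by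
    intro h
    have h1 := DD_mod' (ψ1_mod hw) 35 2 7
    rw [(ZMod.intCast_zmod_eq_zero_iff_dvd _ 13).2 h] at h1
    have h2 := (ZMod.intCast_zmod_eq_zero_iff_dvd _ 13).1 h1.symm
    have := der1
    push_cast at h2
    omega
  obtain ⟨e, he, hen, hz⟩ := exists_zero (l := 13) prime13 (by norm_num) (q0 := 35) (by norm_num)
    (ψ1_per w) (by norm_num) odd7 hb hD n
  have he' : e % 12 = 7 := he
  refine ⟨e, he', prime13, by norm_num, by norm_num, by norm_num, ψ1_per w, ?_, ?_, hz⟩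
  · intro x
    rw [← odd7 x]
    congr 1
    have ho : Odd e := by rw [Nat.odd_iff]; omega
    rw [ho.neg_one_pow]
    norm_num
  · apply ψ1_mul
    have h1 : ((w ^ 2 + w + 1 : ℤ) : ZMod (13 ^ (n + 1))) = 0 := by
      rw [ZMod.intCast_zmod_eq_zero_iff_dvd]
      push_cast
      exact hwn
    push_cast at h1
    exact h1

/-- the second family at level `n` -/
theorem exists_fam2 (n : ℕ) {w : ℤ} (hw : w % 13 = 3) (hwn : (13 : ℤ) ^ (n + 1) ∣ w ^ 2 + w + 1) :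
    ∃ e, e % 12 = 8 ∧ Fam 13 35 n e (ψ2 w) := by
  have odd8 : ∀ x, ψ2 w (-x) * (-1) ^ 8 = - ψ2 w x := by
    intro x
    rw [ψ2_neg]
    norm_num
  have hb : ((13 : ℕ) : ℤ) ∣ Hs 13 35 (ψ2 w) 1 8 := by
    have h1 := Hs_mod (ψ2_mod hw) 35 1 8
    have h2 : ((Hs 13 35 (ψ2 3) 1 8 : ℤ) : ZMod 13) = 0 := by
      rw [ZMod.intCast_zmod_eq_zero_iff_dvd]
      have := base2
      push_cast
      omega
    rw [h2] at h1
    exact (ZMod.intCast_zmod_eq_zero_iff_dvd _ 13).1 h1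
  have hD : ¬ ((13 : ℕ) : ℤ) ∣ DD 13 35 (ψ2 w) 2 8 := by
    intro h
    have h1 := DD_mod' (ψ2_mod hw) 35 2 8
    rw [(ZMod.intCast_zmod_eq_zero_iff_dvd _ 13).2 h] at h1
    have h2 := (ZMod.intCast_zmod_eq_zero_iff_dvd _ 13).1 h1.symm
    have := der2
    push_cast at h2
    omega
  obtain ⟨e, he, hen, hz⟩ := exists_zero (l := 13) prime13 (by norm_num) (q0 := 35) (by norm_num)
    (ψ2_per w) (by norm_num) odd8 hb hD n
  have he' : e % 12 = 8 := he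
  refine ⟨e, he', prime13, by norm_num, by norm_num, by norm_num, ψ2_per w, ?_, ?_, hz⟩
  · intro x
    rw [← odd8 x]
    congr 1
    have ho : Even e := by rw [Nat.even_iff]; omega
    rw [ho.neg_one_pow]
    norm_num
  · apply ψ2_mul
    have h1 : ((w ^ 2 + w + 1 : ℤ) : ZMod (13 ^ (n + 1))) = 0 := by
      rw [ZMod.intCast_zmod_eq_zero_iff_dvd]
      push_cast
      exact hwn
    push_cast at h1
    exact h1

/-! ### the reduced central sums -/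

/-- the cubic character with values modulo thirteen -/
def c7 (x : ZMod 7) : ZMod 13 := ((C7 3 x : ℤ) : ZMod 13)
/-- the product with the quadratic character -/
def s7 (x : ZMod 7) : ZMod 13 := ((T7 x * C7 3 x : ℤ) : ZMod 13)

lemma T5_sum : ∀ D x : ZMod 5, D ^ 2 = -1 →
    ∑ i ∈ range 5, T5 (D * x ^ 2 - (i : ZMod 5) ^ 2) = if x = 0 then 4 else -1 := by decide
lemma c7_sum : ∀ D x : ZMod 7, D ^ 3 = -1 →
    ∑ i ∈ range 7, c7 (D * x ^ 2 - (i : ZMod 7) ^ 2) =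
      c7 x ^ 2 * ∑ i ∈ range 7, c7 (D - (i : ZMod 7) ^ 2) := by decide +kernel
lemma s7_sum : ∀ D x : ZMod 7, D ^ 3 = -1 →
    ∑ i ∈ range 7, s7 (D * x ^ 2 - (i : ZMod 7) ^ 2) =
      s7 x ^ 2 * ∑ i ∈ range 7, s7 (D - (i : ZMod 7) ^ 2) := by decide +kernel
lemma c7_ne : ∀ D : ZMod 7, D ^ 3 = -1 → ∑ i ∈ range 7, c7 (D - (i : ZMod 7) ^ 2) ≠ 0 := by
  decide +kernel
lemma s7_ne : ∀ D : ZMod 7, D ^ 3 = -1 → ∑ i ∈ range 7, s7 (D - (i : ZMod 7) ^ 2) ≠ 0 := by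
  decide +kernel
lemma p7_sum : ∀ c : ZMod 13, ∑ j ∈ range 13, (c - (j : ZMod 13) ^ 2) ^ 7 = 6 * c := by
  decide +kernel
lemma p8_sum : ∀ c : ZMod 13, ∑ j ∈ range 13, (c - (j : ZMod 13) ^ 2) ^ 8 = 11 * c ^ 2 := by
  decide +kernel

/-- the weight sum of the first family -/
def W1 : ℤ := ∑ x ∈ range 455, bt 455 x *
  ((if (x : ZMod 5) = 0 then 4 else -1) * (C7 3 (x : ZMod 7) ^ 2 * (x : ℤ) ^ 2))
/-- the weight sum of the second family -/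
def W2 : ℤ := ∑ x ∈ range 455, bt 455 x *
  ((if (x : ZMod 5) = 0 then 4 else -1) * ((T7 (x : ZMod 7) * C7 3 (x : ZMod 7)) ^ 2 * (x : ℤ) ^ 4))

lemma W1_ne : W1 % 13 ≠ 0 := by decide +kernel
lemma W2_ne : W2 % 13 ≠ 0 := by decide +kernel

lemma AA1 {w : ℤ} (hw : w % 13 = 3) {e : ℕ} (he : e % 12 = 7) {D : ℤ}
    (h5 : (D : ZMod 5) ^ 2 = -1) (h7 : (D : ZMod 7) ^ 3 = -1) (x : ℕ) :
    ((AA 13 35 e (ψ1 w) D x : ℤ) : ZMod 13) =
      ((((if (x : ZMod 5) = 0 then 4 else -1) * (C7 3 (x : ZMod 7) ^ 2 * (x : ℤ) ^ 2) : ℤ)) : ZMod 13)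
        * ((∑ i ∈ range 7, c7 ((D : ZMod 7) - (i : ZMod 7) ^ 2)) * (6 * D)) := by
  unfold AA
  rw [Int.cast_mul, Int.cast_sum, Int.cast_sum]
  have e1 : ∑ i ∈ range 35, ((ψ1 w (D * (x : ℤ) ^ 2 - (i : ℤ) ^ 2) : ℤ) : ZMod 13)
      = (((if (x : ZMod 5) = 0 then 4 else -1 : ℤ)) : ZMod 13) *
        (c7 (x : ZMod 7) ^ 2 * ∑ i ∈ range 7, c7 ((D : ZMod 7) - (i : ZMod 7) ^ 2)) := by
    have h := crt_sum (R := ZMod 13) (a := 5) (b := 7) (by norm_num) (by norm_num) (by norm_num)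
      (fun i => ((T5 ((D : ZMod 5) * (x : ZMod 5) ^ 2 - (i : ZMod 5) ^ 2) : ℤ) : ZMod 13))
      (fun i => c7 ((D : ZMod 7) * (x : ZMod 7) ^ 2 - (i : ZMod 7) ^ 2))
    rw [c7_sum _ _ h7, ← Int.cast_sum, T5_sum _ _ h5] at h
    rw [← h]
    apply Finset.sum_congr rfl
    intro i _
    rw [ψ1_mod hw]
    unfold ψ1 c7
    push_cast
    rw [ZMod.natCast_mod, ZMod.natCast_mod]
  have e2 : ∑ j ∈ range 13, (((D * (x : ℤ) ^ 2 - (j : ℤ) ^ 2) ^ e : ℤ) : ZMod 13)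
      = 6 * ((D : ZMod 13) * (x : ZMod 13) ^ 2) := by
    rw [← p7_sum]
    apply Finset.sum_congr rfl
    intro j _
    push_cast
    exact pow_expo prime13 (m := e) (m0 := 7) (by norm_num; omega) (by omega) (by norm_num) _
  rw [e1, e2]
  unfold c7
  push_cast
  ring

lemma AA2 {w : ℤ} (hw : w % 13 = 3) {e : ℕ} (he : e % 12 = 8) {D : ℤ}
    (h5 : (D : ZMod 5) ^ 2 = -1) (h7 : (D : ZMod 7) ^ 3 = -1) (x : ℕ) :
    ((AA 13 35 e (ψ2 w) D x : ℤ) : ZMod 13) =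
      ((((if (x : ZMod 5) = 0 then 4 else -1) *
        ((T7 (x : ZMod 7) * C7 3 (x : ZMod 7)) ^ 2 * (x : ℤ) ^ 4) : ℤ)) : ZMod 13)
        * ((∑ i ∈ range 7, s7 ((D : ZMod 7) - (i : ZMod 7) ^ 2)) * (11 * D ^ 2)) := by
  unfold AA
  rw [Int.cast_mul, Int.cast_sum, Int.cast_sum]
  have e1 : ∑ i ∈ range 35, ((ψ2 w (D * (x : ℤ) ^ 2 - (i : ℤ) ^ 2) : ℤ) : ZMod 13)
      = (((if (x : ZMod 5) = 0 then 4 else -1 : ℤ)) : ZMod 13) *
        (s7 (x : ZMod 7) ^ 2 * ∑ i ∈ range 7, s7 ((D : ZMod 7) - (i : ZMod 7) ^ 2)) := by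
    have h := crt_sum (R := ZMod 13) (a := 5) (b := 7) (by norm_num) (by norm_num) (by norm_num)
      (fun i => ((T5 ((D : ZMod 5) * (x : ZMod 5) ^ 2 - (i : ZMod 5) ^ 2) : ℤ) : ZMod 13))
      (fun i => s7 ((D : ZMod 7) * (x : ZMod 7) ^ 2 - (i : ZMod 7) ^ 2))
    rw [s7_sum _ _ h7, ← Int.cast_sum, T5_sum _ _ h5] at h
    rw [← h]
    apply Finset.sum_congr rfl
    intro i _
    rw [ψ2_mod hw]
    unfold ψ2 s7
    push_cast
    rw [ZMod.natCast_mod, ZMod.natCast_mod]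
  have e2 : ∑ j ∈ range 13, (((D * (x : ℤ) ^ 2 - (j : ℤ) ^ 2) ^ e : ℤ) : ZMod 13)
      = 11 * ((D : ZMod 13) * (x : ZMod 13) ^ 2) ^ 2 := by
    rw [← p8_sum]
    apply Finset.sum_congr rfl
    intro j _
    push_cast
    exact pow_expo prime13 (m := e) (m0 := 8) (by norm_num; omega) (by omega) (by norm_num) _
  rw [e1, e2]
  unfold s7
  push_cast
  ring

lemma six_ne : (6 : ZMod 13) ≠ 0 := by decide
lemma eleven_ne : (11 : ZMod 13) ≠ 0 := by decide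

lemma ne13 {D : ℤ} (h13 : (D : ZMod 13) ^ 6 = -1) : (D : ZMod 13) ≠ 0 := by
  intro h0
  rw [h0] at h13
  exact absurd h13 (by decide)

theorem CR1_ne {w : ℤ} (hw : w % 13 = 3) {e : ℕ} (he : e % 12 = 7) {D : ℤ}
    (h5 : (D : ZMod 5) ^ 2 = -1) (h7 : (D : ZMod 7) ^ 3 = -1) (h13 : (D : ZMod 13) ^ 6 = -1) :
    ¬ (13 : ℤ) ∣ CR 13 35 e (ψ1 w) D := by
  intro h
  have : Fact (Nat.Prime 13) := ⟨prime13⟩
  have h1 : ((CR 13 35 e (ψ1 w) D : ℤ) : ZMod 13) = 0 :=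
    (ZMod.intCast_zmod_eq_zero_iff_dvd _ 13).2 (by exact_mod_cast h)
  unfold CR at h1
  rw [Int.cast_sum] at h1
  have e1 : ∀ x ∈ range (35 * 13), ((bt (35 * 13) x * AA 13 35 e (ψ1 w) D x : ℤ) : ZMod 13)
      = ((bt 455 x * ((if (x : ZMod 5) = 0 then 4 else -1) *
        (C7 3 (x : ZMod 7) ^ 2 * (x : ℤ) ^ 2)) : ℤ) : ZMod 13)
        * ((∑ i ∈ range 7, c7 ((D : ZMod 7) - (i : ZMod 7) ^ 2)) * (6 * D)) := by
    intro x _
    rw [Int.cast_mul, AA1 hw he h5 h7, Int.cast_mul (bt 455 x), mul_assoc]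
  rw [Finset.sum_congr rfl e1, ← Finset.sum_mul, ← Int.cast_sum] at h1
  have h2 : ((W1 : ℤ) : ZMod 13) * ((∑ i ∈ range 7, c7 ((D : ZMod 7) - (i : ZMod 7) ^ 2)) *
      (6 * D)) = 0 := h1
  have a1 : ((W1 : ℤ) : ZMod 13) ≠ 0 := by
    intro h0
    have := (ZMod.intCast_zmod_eq_zero_iff_dvd W1 13).1 h0
    have h3 := W1_ne
    push_cast at this
    omega
  have a2 := c7_ne _ h7
  have a3 := six_ne
  rcases mul_eq_zero.1 h2 with h3 | h3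
  · exact a1 h3
  · rcases mul_eq_zero.1 h3 with h3 | h3
    · exact a2 h3
    · rcases mul_eq_zero.1 h3 with h3 | h3
      · exact a3 h3
      · exact ne13 h13 h3

theorem CR2_ne {w : ℤ} (hw : w % 13 = 3) {e : ℕ} (he : e % 12 = 8) {D : ℤ}
    (h5 : (D : ZMod 5) ^ 2 = -1) (h7 : (D : ZMod 7) ^ 3 = -1) (h13 : (D : ZMod 13) ^ 6 = -1) :
    ¬ (13 : ℤ) ∣ CR 13 35 e (ψ2 w) D := by
  intro h
  have : Fact (Nat.Prime 13) := ⟨prime13⟩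
  have h1 : ((CR 13 35 e (ψ2 w) D : ℤ) : ZMod 13) = 0 :=
    (ZMod.intCast_zmod_eq_zero_iff_dvd _ 13).2 (by exact_mod_cast h)
  unfold CR at h1
  rw [Int.cast_sum] at h1
  have e1 : ∀ x ∈ range (35 * 13), ((bt (35 * 13) x * AA 13 35 e (ψ2 w) D x : ℤ) : ZMod 13)
      = ((bt 455 x * ((if (x : ZMod 5) = 0 then 4 else -1) *
        ((T7 (x : ZMod 7) * C7 3 (x : ZMod 7)) ^ 2 * (x : ℤ) ^ 4)) : ℤ) : ZMod 13)
        * ((∑ i ∈ range 7, s7 ((D : ZMod 7) - (i : ZMod 7) ^ 2)) * (11 * D ^ 2)) := by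
    intro x _
    rw [Int.cast_mul, AA2 hw he h5 h7, Int.cast_mul (bt 455 x), mul_assoc]
  rw [Finset.sum_congr rfl e1, ← Finset.sum_mul, ← Int.cast_sum] at h1
  have h2 : ((W2 : ℤ) : ZMod 13) * ((∑ i ∈ range 7, s7 ((D : ZMod 7) - (i : ZMod 7) ^ 2)) *
      (11 * D ^ 2)) = 0 := h1
  have a1 : ((W2 : ℤ) : ZMod 13) ≠ 0 := by
    intro h0
    have := (ZMod.intCast_zmod_eq_zero_iff_dvd W2 13).1 h0
    have h3 := W2_ne
    push_cast at this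
    omega
  have a2 := s7_ne _ h7
  have a3 := eleven_ne
  rcases mul_eq_zero.1 h2 with h3 | h3
  · exact a1 h3
  · rcases mul_eq_zero.1 h3 with h3 | h3
    · exact a2 h3
    · rcases mul_eq_zero.1 h3 with h3 | h3
      · exact a3 h3
      · exact ne13 h13 (pow_eq_zero_iff (by norm_num) |>.1 h3)

end Pool.Agent.P4G
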