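import Pool.Agent.RDF.Smooth

/-!
Zeros of `l`-adic `L`-functions, elementary form: exponents `m` for which the half sum of
`ψ(r) r ^ m` is divisible by `l ^ v`. General odd prime `l` and periodic function `ψ`.
-/

namespace Pool.Agent.P4G

open Finset (range)
open Pool.Agent.RDF (sum_range_zmod)

/-- a full period of an odd function -/
lemma full_sum {M Q : ℕ} (hM : M % 2 = 1) (hQ : 0 < Q) (g : ℤ → ZMod M)
    (hper : ∀ x, g (x + Q) = g x) (hodd : ∀ x, g (-x) = - g x) : ∑ r ∈ range Q, g r = 0 := by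
  have : NeZero Q := ⟨hQ.ne'⟩
  have hper' : ∀ (x t : ℤ), g (x + t * Q) = g x := by
    intro x t
    induction t using Int.induction_on with
    | zero => simp
    | succ i ih =>
      rw [show x + (i + 1 : ℤ) * Q = (x + i * Q) + Q by ring, hper, ih]
    | pred i ih =>
      rw [← hper (x + (-(i : ℤ) - 1) * Q),
        show x + (-(i : ℤ) - 1) * Q + Q = x + -(i : ℤ) * Q by ring, ih]
  have e1 : ∀ r ∈ range Q, g r = (fun x : ZMod Q => g (x.val : ℤ)) (r : ZMod Q) := by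
    intro r hr
    simp only
    rw [ZMod.val_cast_of_lt (Finset.mem_range.1 hr)]
  rw [Finset.sum_congr rfl e1, sum_range_zmod (fun x : ZMod Q => g (x.val : ℤ))]
  have e2 : ∀ x : ZMod Q, g (((-x).val : ℕ) : ℤ) = - g (x.val : ℤ) := by
    intro x
    rw [← hodd]
    have h : ((((-x).val : ℕ) : ℤ) : ZMod Q) = ((-(x.val : ℤ) : ℤ) : ZMod Q) := by
      push_cast
      rw [ZMod.natCast_zmod_val, ZMod.natCast_zmod_val]
    rw [ZMod.intCast_eq_intCast_iff_dvd_sub] at h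
    obtain ⟨t, ht⟩ := h
    have : (((-x).val : ℕ) : ℤ) = -(x.val : ℤ) + (-t) * Q := by linear_combination -ht
    rw [this, hper']
  have e3 := Equiv.sum_comp (Equiv.neg (ZMod Q)) (fun x : ZMod Q => g (x.val : ℤ))
  simp only [Equiv.neg_apply, e2, Finset.sum_neg_distrib] at e3
  set S := ∑ x : ZMod Q, g (x.val : ℤ)
  have h2 : (2 : ZMod M) * S = 0 := by linear_combination -e3
  have hu : IsUnit (2 : ZMod M) := by
    have := (ZMod.isUnit_iff_coprime 2 M).2 (Nat.coprime_two_left.2 (Nat.odd_iff.2 hM))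
    exact_mod_cast this
  exact (hu.mul_right_eq_zero).1 h2

/-- half sums over multiples of the period -/
lemma half_sum {M Q : ℕ} (hM : M % 2 = 1) (hQ : Q % 2 = 1) (s : ℕ) (g : ℤ → ZMod M)
    (hper : ∀ x, g (x + Q) = g x) (hodd : ∀ x, g (-x) = - g x) :
    ∑ r ∈ range (((2 * s + 1) * Q + 1) / 2), g r = ∑ r ∈ range ((Q + 1) / 2), g r := by
  have hQ0 : 0 < Q := by omega
  have e : ((2 * s + 1) * Q + 1) / 2 = s * Q + (Q + 1) / 2 := by
    have : (2 * s + 1) * Q + 1 = 2 * (s * Q) + (Q + 1) := by ring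
    omega
  have hper' : ∀ (n : ℕ) (x : ℤ), g (x + n * Q) = g x := by
    intro n x
    induction n with
    | zero => simp
    | succ i ih =>
      rw [show x + ((i + 1 : ℕ) : ℤ) * Q = (x + i * Q) + Q by push_cast; ring, hper, ih]
  rw [e, Finset.sum_range_add]
  have f1 : ∑ r ∈ range (s * Q), g r = 0 := by
    clear e
    induction s with
    | zero => simp
    | succ i ih =>
      rw [Nat.succ_mul, Finset.sum_range_add, ih, zero_add, ← full_sum hM hQ0 g hper hodd]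
      apply Finset.sum_congr rfl
      intro r _
      rw [← hper' i r]
      congr 1
      push_cast
      ring
  rw [f1, zero_add]
  apply Finset.sum_congr rfl
  intro r _
  rw [← hper' s r]
  congr 1
  push_cast
  ring

/-- expansion of a power to the third order -/
lemma pow_three (x : ℤ) (k : ℕ) : ∃ s : ℤ, (1 + x) ^ k = 1 + k * x + (k.choose 2) * x ^ 2 + x ^ 3 * s := by
  induction k with
  | zero => exact ⟨0, by simp⟩
  | succ k ih =>
    obtain ⟨s, hs⟩ := ih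
    refine ⟨s + x * s + k.choose 2, ?_⟩
    have e : (k + 1).choose 2 = k + k.choose 2 := by
      rw [Nat.choose_succ_succ' k 1, Nat.choose_one_right]
    rw [pow_succ, hs, e]
    push_cast
    ring

section

variable {l : ℕ} (hl : l.Prime) (hl2 : l ≠ 2)

include hl hl2 in
/-- powers of `1 + l c` -/
lemma pow_l (n : ℕ) (c : ℤ) :
    (l : ℤ) ^ (n + 2) ∣ (1 + l * c) ^ (l ^ n) - (1 + (l : ℤ) ^ (n + 1) * c) := by
  have hlo : l % 2 = 1 := by
    rcases hl.eq_two_or_odd with h | h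
    · exact absurd h hl2
    · exact h
  obtain ⟨k2, hk2⟩ : ∃ k2 : ℕ, l.choose 2 = l * k2 := by
    refine ⟨(l - 1) / 2, ?_⟩
    rw [Nat.choose_two_right]
    obtain ⟨i, hi⟩ : ∃ i, l = 2 * i + 1 := ⟨l / 2, by omega⟩
    rw [hi]
    have e1 : 2 * i + 1 - 1 = i * 2 := by omega
    rw [e1, ← mul_assoc, Nat.mul_div_cancel _ (by norm_num), Nat.mul_div_cancel _ (by norm_num)]
  induction n with
  | zero => simp
  | succ n ih =>
    obtain ⟨t, ht⟩ := ih
    have hx : (1 + l * c) ^ (l ^ n) = 1 + (l : ℤ) ^ (n + 1) * (c + l * t) := by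
      have : (l : ℤ) ^ (n + 2) = l ^ (n + 1) * l := by ring
      rw [this] at ht
      linear_combination ht
    rw [pow_succ l n, pow_mul, hx]
    set y := c + l * t with hy
    obtain ⟨s, hs⟩ := pow_three ((l : ℤ) ^ (n + 1) * y) l
    rw [hs, hk2]
    obtain ⟨z, hz⟩ : ∃ z : ℤ, z = (l : ℤ) ^ n := ⟨_, rfl⟩
    refine ⟨t + z * k2 * y ^ 2 + z ^ 2 * y ^ 3 * s, ?_⟩
    have e1 : (l : ℤ) ^ (n + 1) = l * z := by rw [hz]; ring
    have e2 : (l : ℤ) ^ (n + 1 + 1) = l ^ 2 * z := by rw [hz]; ring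
    have e3 : (l : ℤ) ^ (n + 1 + 2) = l ^ 3 * z := by rw [hz]; ring
    rw [e1, e2, e3, hy]
    push_cast
    ring

/-- the Fermat quotient -/
def fq (l : ℕ) (r : ℤ) : ℤ := if (l : ℤ) ∣ r then 0 else (r ^ (l - 1) - 1) / l

include hl in
lemma fq_spec {r : ℤ} (h : ¬ (l : ℤ) ∣ r) : r ^ (l - 1) = 1 + l * fq l r := by
  unfold fq
  rw [if_neg h]
  have hc : IsCoprime r (l : ℤ) :=
    ((Nat.prime_iff_prime_int.1 hl).coprime_iff_not_dvd.2 h).symm
  have h1 := (Int.ModEq.pow_card_sub_one_eq_one hl hc).symm.dvd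
  have := Int.mul_ediv_cancel' h1
  linarith

include hl hl2 in
/-- changing the exponent -/
lemma pow_change {r : ℤ} {v m j : ℕ} (hmv : v + 2 ≤ m) :
    (l : ℤ) ^ (v + 2) ∣ r ^ (m + (l - 1) * l ^ v * j) -
      (r ^ m + (l : ℤ) ^ (v + 1) * j * (r ^ m * fq l r)) := by
  by_cases h : (l : ℤ) ∣ r
  · have h0 : fq l r = 0 := by unfold fq; rw [if_pos h]
    rw [h0, mul_zero, mul_zero, add_zero]
    have h1 : (l : ℤ) ^ (v + 2) ∣ r ^ m := (pow_dvd_pow _ hmv).trans (pow_dvd_pow_of_dvd h m)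
    apply dvd_sub _ h1
    have e : r ^ (m + (l - 1) * l ^ v * j) = r ^ m * r ^ ((l - 1) * l ^ v * j) := pow_add _ _ _
    rw [e]
    exact h1.mul_right _
  · have h1 := fq_spec hl h
    set c := fq l r
    obtain ⟨t, ht⟩ := pow_l hl hl2 v c
    have h2 : r ^ ((l - 1) * l ^ v) = 1 + (l : ℤ) ^ (v + 1) * (c + l * t) := by
      rw [pow_mul, h1]
      have : (l : ℤ) ^ (v + 2) = l ^ (v + 1) * l := by ring
      rw [this] at ht
      linear_combination ht
    have h3 : ∃ s : ℤ, (1 + (l : ℤ) ^ (v + 1) * (c + l * t)) ^ j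
        = 1 + (l : ℤ) ^ (v + 1) * (j * c) + (l : ℤ) ^ (v + 2) * s := by
      induction j with
      | zero => exact ⟨0, by simp⟩
      | succ j ih =>
        obtain ⟨s, hs⟩ := ih
        refine ⟨s + t + (l : ℤ) ^ v * (j * c * (c + l * t)) +
          (l : ℤ) ^ (v + 1) * (s * (c + l * t)), ?_⟩
        rw [pow_succ, hs]
        push_cast
        ring
    obtain ⟨s, hs⟩ := h3
    refine ⟨r ^ m * s, ?_⟩
    rw [pow_add, pow_mul, h2, hs]
    ring

/-- the half sum -/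
def Hs (l q0 : ℕ) (ψ : ℤ → ℤ) (v m : ℕ) : ℤ :=
  ∑ r ∈ range ((q0 * l ^ v + 1) / 2), ψ r * (r : ℤ) ^ m

/-- the derivative -/
def DD (l q0 : ℕ) (ψ : ℤ → ℤ) (n m : ℕ) : ℤ :=
  ∑ r ∈ range ((q0 * l ^ n + 1) / 2), ψ r * ((r : ℤ) ^ m * fq l r)

include hl hl2 in
lemma Hs_change (q0 : ℕ) (ψ : ℤ → ℤ) {v m j : ℕ} (hmv : v + 2 ≤ m) (n : ℕ) :
    (l : ℤ) ^ (v + 2) ∣ Hs l q0 ψ n (m + (l - 1) * l ^ v * j) -
      (Hs l q0 ψ n m + (l : ℤ) ^ (v + 1) * j * DD l q0 ψ n m) := by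
  unfold Hs DD
  rw [Finset.mul_sum, ← Finset.sum_add_distrib, ← Finset.sum_sub_distrib]
  apply Finset.dvd_sum
  intro r _
  have := pow_change hl hl2 (r := (r : ℤ)) (j := j) hmv
  have e : ψ r * (r : ℤ) ^ (m + (l - 1) * l ^ v * j) - (ψ r * (r : ℤ) ^ m
      + (l : ℤ) ^ (v + 1) * j * (ψ r * ((r : ℤ) ^ m * fq l r)))
      = ψ r * ((r : ℤ) ^ (m + (l - 1) * l ^ v * j) - ((r : ℤ) ^ m + (l : ℤ) ^ (v + 1) * j *
        ((r : ℤ) ^ m * fq l r))) := by ring
  rw [e]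
  exact this.mul_left _

include hl in
lemma fq_add (r : ℤ) : ((fq l (r + (l : ℤ) ^ 2) : ℤ) : ZMod l) = (fq l r : ℤ) := by
  rw [ZMod.intCast_eq_intCast_iff_dvd_sub]
  have hd : ((l : ℤ) ∣ r + (l : ℤ) ^ 2) ↔ (l : ℤ) ∣ r := by
    rw [dvd_add_left (Dvd.intro_left ((l : ℤ)) (by ring : (l : ℤ) * l = l ^ 2))]
  by_cases h : (l : ℤ) ∣ r
  · unfold fq
    rw [if_pos h, if_pos (hd.2 h)]
    simp
  · have h' : ¬ (l : ℤ) ∣ r + (l : ℤ) ^ 2 := fun h0 => h (hd.1 h0)
    have e1 := fq_spec hl h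
    have e2 := fq_spec hl h'
    obtain ⟨u, hu⟩ := sub_dvd_pow_sub_pow (r + (l : ℤ) ^ 2) r (l - 1)
    rw [e1, e2] at hu
    have hl0 : (l : ℤ) ≠ 0 := by exact_mod_cast hl.ne_zero
    refine ⟨-u, ?_⟩
    apply mul_left_cancel₀ hl0
    linear_combination -hu

include hl hl2 in
lemma fq_neg (r : ℤ) : fq l (-r) = fq l r := by
  have hev : Even (l - 1) := by
    rcases hl.eq_two_or_odd with h | h
    · exact absurd h hl2
    · rw [Nat.even_iff]; have := hl.two_le; omega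
  unfold fq
  by_cases h : (l : ℤ) ∣ r
  · rw [if_pos h, if_pos ((dvd_neg).2 h)]
  · rw [if_neg h, if_neg (fun h' => h ((dvd_neg).1 h')), hev.neg_pow]

include hl in
/-- powers depend on the exponent modulo `l - 1` -/
lemma pow_expo {m m0 : ℕ} (hm : m % (l - 1) = m0 % (l - 1)) (h0 : m ≠ 0) (h0' : m0 ≠ 0)
    (z : ZMod l) : z ^ m = z ^ m0 := by
  have : Fact l.Prime := ⟨hl⟩
  rcases eq_or_ne z 0 with rfl | hz
  · rw [zero_pow h0, zero_pow h0']
  · have h1 := ZMod.pow_card_sub_one_eq_one hz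
    rw [← Nat.div_add_mod m (l - 1), ← Nat.div_add_mod m0 (l - 1), pow_add, pow_add, pow_mul,
      pow_mul, h1, one_pow, one_pow, hm]

variable {q0 : ℕ} {ψ : ℤ → ℤ} {m0 : ℕ}

include hl in
lemma DD_expo {m : ℕ} (hm : m % (l - 1) = m0 % (l - 1)) (h0 : m ≠ 0) (h0' : m0 ≠ 0) (n : ℕ) :
    ((DD l q0 ψ n m : ℤ) : ZMod l) = (DD l q0 ψ n m0 : ℤ) := by
  unfold DD
  push_cast
  apply Finset.sum_congr rfl
  intro r _
  rw [pow_expo hl hm h0 h0']

include hl hl2 in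
lemma DD_mod (hq : q0 % 2 = 1) (hper : ∀ x, ψ (x + q0) = ψ x)
    (hodd : ∀ x, ψ (-x) * (-1) ^ m0 = - ψ x) (n : ℕ) :
    ((DD l q0 ψ (n + 2) m0 : ℤ) : ZMod l) = (DD l q0 ψ 2 m0 : ℤ) := by
  have hlo : l % 2 = 1 := by
    rcases hl.eq_two_or_odd with h | h
    · exact absurd h hl2
    · exact h
  have hperT : ∀ (t : ℕ) (x : ℤ), ψ (x + t * q0) = ψ x := by
    intro t x
    induction t with
    | zero => simp
    | succ i ih => rw [show x + ((i + 1 : ℕ) : ℤ) * q0 = (x + i * q0) + q0 by push_cast; ring,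
        hper, ih]
  let g : ℤ → ZMod l := fun r => ((ψ r * (r ^ m0 * fq l r) : ℤ) : ZMod l)
  have hfq : ∀ (n : ℕ) (x : ℤ), ((fq l (x + (l : ℤ) ^ 2 * n) : ℤ) : ZMod l) = (fq l x : ℤ) := by
    intro n x
    induction n with
    | zero => simp
    | succ n ih =>
      have e : x + (l : ℤ) ^ 2 * ((n + 1 : ℕ) : ℤ) = (x + (l : ℤ) ^ 2 * n) + (l : ℤ) ^ 2 := by
        push_cast; ring
      rw [e, fq_add hl, ih]
  have hperg : ∀ x, g (x + (q0 * l ^ 2 : ℕ)) = g x := by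
    intro x
    simp only [g]
    have e1 : ψ (x + (q0 * l ^ 2 : ℕ)) = ψ x := by
      have := hperT (l ^ 2) x
      rw [← this]
      congr 1
      push_cast
      ring
    have e3 : ((fq l (x + (q0 * l ^ 2 : ℕ)) : ℤ) : ZMod l) = (fq l x : ℤ) := by
      rw [← hfq q0 x]
      congr 3
      push_cast
      ring
    rw [e1]
    push_cast at e3 ⊢
    rw [e3, ZMod.natCast_self]
    ring
  have hoddg : ∀ x, g (-x) = - g x := by
    intro x
    simp only [g]
    rw [fq_neg hl hl2]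
    have e : ψ (-x) * ((-x) ^ m0 * fq l x) = -(ψ x * (x ^ m0 * fq l x)) := by
      have : (-x) ^ m0 = (-1) ^ m0 * x ^ m0 := by rw [← mul_pow, neg_one_mul]
      rw [this]
      linear_combination (x ^ m0 * fq l x) * hodd x
    rw [e]
    push_cast
    rfl
  obtain ⟨s, hs⟩ : ∃ s, l ^ n = 2 * s + 1 := by
    have : Odd (l ^ n) := Odd.pow (Nat.odd_iff.2 hlo)
    obtain ⟨s, hs⟩ := this
    exact ⟨s, hs⟩
  have hQ : (q0 * l ^ 2) % 2 = 1 := by
    have : Odd (q0 * l ^ 2) := Odd.mul (Nat.odd_iff.2 hq) (Odd.pow (Nat.odd_iff.2 hlo))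
    exact Nat.odd_iff.1 this
  have key := half_sum (M := l) (Q := q0 * l ^ 2) hlo hQ s g hperg hoddg
  have e1 : (2 * s + 1) * (q0 * l ^ 2) = q0 * l ^ (n + 2) := by rw [← hs]; ring
  rw [e1] at key
  have e2 : ∀ N : ℕ, ∑ r ∈ range N, g r
      = ((∑ r ∈ range N, ψ r * ((r : ℤ) ^ m0 * fq l r) : ℤ) : ZMod l) := by
    intro N
    push_cast
    apply Finset.sum_congr rfl
    intro r _
    simp only [g]
    push_cast
    rfl
  rw [e2, e2] at key
  exact key

include hl hl2 in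
lemma Hs_succ (hq : q0 % 2 = 1) (hper : ∀ x, ψ (x + q0) = ψ x)
    {v m : ℕ} (hodd : ∀ x, ψ (-x) * (-1) ^ m = - ψ x)
    (h : (l : ℤ) ^ (v + 1) ∣ Hs l q0 ψ (v + 1) m) :
    (l : ℤ) ^ (v + 1) ∣ Hs l q0 ψ (v + 2) m := by
  have hlo : l % 2 = 1 := by
    rcases hl.eq_two_or_odd with h | h
    · exact absurd h hl2
    · exact h
  have hperT : ∀ (t : ℕ) (x : ℤ), ψ (x + t * q0) = ψ x := by
    intro t x
    induction t with
    | zero => simp
    | succ i ih => rw [show x + ((i + 1 : ℕ) : ℤ) * q0 = (x + i * q0) + q0 by push_cast; ring,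
        hper, ih]
  let g : ℤ → ZMod (l ^ (v + 1)) := fun r => ((ψ r * r ^ m : ℤ) : ZMod (l ^ (v + 1)))
  have hperg : ∀ x, g (x + (q0 * l ^ (v + 1) : ℕ)) = g x := by
    intro x
    simp only [g]
    have e1 : ψ (x + (q0 * l ^ (v + 1) : ℕ)) = ψ x := by
      have := hperT (l ^ (v + 1)) x
      rw [← this]
      congr 1
      push_cast
      ring
    rw [e1]
    push_cast
    have h0 : ((l : ZMod (l ^ (v + 1))) ^ (v + 1)) = 0 := by
      have := ZMod.natCast_self (l ^ (v + 1))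
      push_cast at this
      exact this
    rw [h0, mul_zero, add_zero]
  have hoddg : ∀ x, g (-x) = - g x := by
    intro x
    simp only [g]
    have e : ψ (-x) * (-x) ^ m = -(ψ x * x ^ m) := by
      have : (-x) ^ m = (-1) ^ m * x ^ m := by rw [← mul_pow, neg_one_mul]
      rw [this]
      linear_combination (x ^ m) * hodd x
    rw [e]
    push_cast
    rfl
  have hlp : (l ^ (v + 1)) % 2 = 1 := Nat.odd_iff.1 (Odd.pow (Nat.odd_iff.2 hlo))
  have hQ : (q0 * l ^ (v + 1)) % 2 = 1 := by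
    have : Odd (q0 * l ^ (v + 1)) := Odd.mul (Nat.odd_iff.2 hq) (Odd.pow (Nat.odd_iff.2 hlo))
    exact Nat.odd_iff.1 this
  obtain ⟨s, hs⟩ : ∃ s, l = 2 * s + 1 := ⟨l / 2, by omega⟩
  have key := half_sum (M := l ^ (v + 1)) hlp hQ s g hperg hoddg
  have e1 : (2 * s + 1) * (q0 * l ^ (v + 1)) = q0 * l ^ (v + 2) := by
    rw [← hs]; ring
  rw [e1] at key
  have e2 : ∀ N : ℕ, ∑ r ∈ range N, g r
      = ((∑ r ∈ range N, ψ r * (r : ℤ) ^ m : ℤ) : ZMod (l ^ (v + 1))) := by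
    intro N
    push_cast
    apply Finset.sum_congr rfl
    intro r _
    simp only [g]
    push_cast
    rfl
  rw [e2, e2] at key
  have h1 : ((Hs l q0 ψ (v + 1) m : ℤ) : ZMod (l ^ (v + 1))) = 0 := by
    rw [ZMod.intCast_zmod_eq_zero_iff_dvd]
    push_cast
    exact h
  have h2 : ((Hs l q0 ψ (v + 2) m : ℤ) : ZMod (l ^ (v + 1))) = 0 := by
    rw [← h1]; exact key
  rw [ZMod.intCast_zmod_eq_zero_iff_dvd] at h2
  push_cast at h2
  exact h2

include hl hl2 in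
/-- **zeros of the half sums** -/
theorem exists_zero (hq : q0 % 2 = 1) (hper : ∀ x, ψ (x + q0) = ψ x) (hm0 : 2 ≤ m0)
    (hodd : ∀ x, ψ (-x) * (-1) ^ m0 = - ψ x)
    (hbase : (l : ℤ) ∣ Hs l q0 ψ 1 m0) (hD : ¬ (l : ℤ) ∣ DD l q0 ψ 2 m0) (v : ℕ) :
    ∃ m, m % (l - 1) = m0 % (l - 1) ∧ v + 2 ≤ m ∧ (l : ℤ) ^ (v + 1) ∣ Hs l q0 ψ (v + 1) m := by
  have hlo : l % 2 = 1 := by
    rcases hl.eq_two_or_odd with h | h
    · exact absurd h hl2
    · exact h
  have hl3 : 3 ≤ l := by have := hl.two_le; omega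
  have hpar : ∀ m, m % (l - 1) = m0 % (l - 1) → ∀ x, ψ (-x) * (-1) ^ m = - ψ x := by
    intro m hm x
    rw [← hodd x]
    congr 1
    have h2 : (-1 : ℤ) ^ (l - 1) = 1 := by
      have hev : Even (l - 1) := by rw [Nat.even_iff]; omega
      exact hev.neg_one_pow
    rw [← Nat.div_add_mod m (l - 1), ← Nat.div_add_mod m0 (l - 1), pow_add, pow_add, pow_mul,
      pow_mul, h2, one_pow, one_pow, hm]
  induction v with
  | zero => exact ⟨m0, rfl, hm0, by simpa using hbase⟩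
  | succ v ih =>
    obtain ⟨m, hm, hmv, hd⟩ := ih
    obtain ⟨h, hh⟩ := Hs_succ hl hl2 hq hper (hpar m hm) hd
    have hD' : ¬ (l : ℤ) ∣ DD l q0 ψ (v + 2) m := by
      intro h5
      apply hD
      rw [← ZMod.intCast_zmod_eq_zero_iff_dvd] at h5 ⊢
      rw [← DD_mod hl hl2 hq hper hodd v, ← DD_expo hl hm (by omega) (by omega)]
      exact h5
    obtain ⟨j, hj1, hj⟩ : ∃ j : ℕ, 1 ≤ j ∧ (l : ℤ) ∣ h + j * DD l q0 ψ (v + 2) m := by
      have hc : IsCoprime (l : ℤ) (DD l q0 ψ (v + 2) m) :=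
        (Nat.prime_iff_prime_int.1 hl).coprime_iff_not_dvd.2 hD'
      obtain ⟨x, y, hxy⟩ := hc
      have hl0 : (0 : ℤ) < l := by exact_mod_cast hl.pos
      refine ⟨((-h * y) % l).toNat + l, by omega, ?_⟩
      have e0 : (0 : ℤ) ≤ (-h * y) % l := Int.emod_nonneg _ hl0.ne'
      have e1 : ((((-h * y) % l).toNat + l : ℕ) : ℤ) = (-h * y) % l + l := by
        push_cast
        rw [Int.toNat_of_nonneg e0]
      rw [e1]
      have e2 := Int.emod_add_mul_ediv (-h * y) l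
      refine ⟨h * x + (1 - (-h * y) / l) * DD l q0 ψ (v + 2) m, ?_⟩
      linear_combination (-h) * hxy + DD l q0 ψ (v + 2) m * e2
    refine ⟨m + (l - 1) * l ^ v * j, ?_, ?_, ?_⟩
    · rw [show m + (l - 1) * l ^ v * j = m + (l - 1) * (l ^ v * j) by ring, Nat.add_mul_mod_self_left]
      exact hm
    · have h1 : 1 ≤ l ^ v := Nat.one_le_pow _ _ hl.pos
      have h2 : 1 ≤ l ^ v * j := Nat.one_le_iff_ne_zero.2 (by positivity)
      have h3 : 2 ≤ (l - 1) * (l ^ v * j) := by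
        calc 2 ≤ (l - 1) * 1 := by omega
          _ ≤ _ := Nat.mul_le_mul_left _ h2
      rw [mul_assoc]
      omega
    · have h1 := Hs_change hl hl2 q0 ψ (j := j) hmv (v + 2)
      obtain ⟨t, ht⟩ := hj
      have e : Hs l q0 ψ (v + 2) m + (l : ℤ) ^ (v + 1) * j * DD l q0 ψ (v + 2) m
          = (l : ℤ) ^ (v + 2) * t := by
        rw [hh]
        have : (l : ℤ) ^ (v + 2) = l ^ (v + 1) * l := by ring
        rw [this]
        linear_combination (l : ℤ) ^ (v + 1) * ht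
      rw [e] at h1
      have h2 := dvd_add h1 (Dvd.intro t rfl : (l : ℤ) ^ (v + 2) ∣ (l : ℤ) ^ (v + 2) * t)
      rw [sub_add_cancel] at h2
      exact h2

end

end Pool.Agent.P4G
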