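import Pool.Agent.P4G.Hens
import Pool.Agent.Lib_helper5.P4Rel

/-!
The exact smoothed identity for the cycle of length four near a ghost: `a = 2`, `b = -1`, `B = -1`
modulo the period.
-/

namespace Pool.Agent.P4G

open Finset (range)
open Pool.Agent.LibH4 Pool.Agent.LibH4.FA Pool.Agent.Lib_helper5 Pool.Agent.RDF

variable {Q : ℕ} [NeZero Q]

/-- the norm form of the ghost -/
def Nm (m x y : ZMod Q) : ZMod Q := x * y + y ^ 2 - m * x ^ 2

/-- the cone sum of the cycle, integer parameters -/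
def LLz (Q : ℕ) (f : ℤ → ℤ) (a b B m r : ℤ) : ℤ :=
  (3 * XZ Q f m B 1 - B * YX Q f m B 1) + (3 * XZ Q f 1 B m - a * YX Q f 1 B m) +
  (3 * XZ Q f m (2 * a * m - B) r - b * YX Q f m (2 * a * m - B) r) +
  (3 * XZ Q f r (2 * a * m - B) m - a * YX Q f r (2 * a * m - B) m)

omit [NeZero Q] in
lemma LL_E4 (f : ℤ → ℤ) (a b B : ℕ) (m r : ℤ) :
    LL 4 (E4.P m r) (E4.R a B m) (E4.S m r) (E4.c a b B) Q f = LLz Q f a b B m r := by
  unfold LL LLz
  rw [Finset.sum_range_succ, Finset.sum_range_succ, Finset.sum_range_succ, Finset.sum_range_succ,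
    Finset.sum_range_zero, zero_add]
  rfl

lemma XZ_neg {f : ℤ → ℤ} (hper : ∀ x, f (x + Q) = f x) (P R S : ℤ) :
    XZ Q f P (-R) S = - XZ Q f P R S := by
  rw [XZ_zmod hper, XZ_zmod hper, ← Equiv.sum_comp (Equiv.neg (ZMod Q)), ← Finset.sum_neg_distrib]
  apply Finset.sum_congr rfl
  intro x _
  rw [← Finset.sum_neg_distrib]
  apply Finset.sum_congr rfl
  intro y _
  simp only [Equiv.neg_apply]
  rw [β_neg]
  have e : ((P : ZMod Q) * (-x) ^ 2 + ((-R : ℤ) : ZMod Q) * (-x) * y - S * y ^ 2)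
      = ((P : ZMod Q) * x ^ 2 + (R : ZMod Q) * x * y - S * y ^ 2) := by push_cast; ring
  rw [e]
  ring

lemma YX_neg' {f : ℤ → ℤ} (hper : ∀ x, f (x + Q) = f x) (P R S : ℤ) :
    YX Q f P (-R) S = YX Q f P R S := by
  rw [YX_zmod hper, YX_zmod hper, ← Equiv.sum_comp (Equiv.neg (ZMod Q))]
  apply Finset.sum_congr rfl
  intro x _
  apply Finset.sum_congr rfl
  intro y _
  simp only [Equiv.neg_apply]
  rw [γ_neg]
  have e : ((P : ZMod Q) * (-x) ^ 2 + ((-R : ℤ) : ZMod Q) * (-x) * y - S * y ^ 2)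
      = ((P : ZMod Q) * x ^ 2 + (R : ZMod Q) * x * y - S * y ^ 2) := by push_cast; ring
  rw [e]

lemma LLz_neg {f : ℤ → ℤ} (hper : ∀ x, f (x + Q) = f x) (a b B m r : ℤ) :
    LLz Q f (-a) (-b) (-B) m r = - LLz Q f a b B m r := by
  unfold LLz
  have e : 2 * -a * m - -B = -(2 * a * m - B) := by ring
  rw [e, XZ_neg hper, XZ_neg hper, XZ_neg hper, XZ_neg hper, YX_neg' hper, YX_neg' hper,
    YX_neg' hper, YX_neg' hper]
  ring

/-- first change of variables -/
def eq1 : ZMod Q × ZMod Q ≃ ZMod Q × ZMod Q where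
  toFun z := (z.1 + z.2, z.1)
  invFun z := (z.2, z.1 - z.2)
  left_inv z := by ext <;> simp
  right_inv z := by ext <;> simp

/-- second change of variables -/
def eq2 : ZMod Q × ZMod Q ≃ ZMod Q × ZMod Q where
  toFun z := (-(z.1 + 2 * z.2), z.1 + z.2)
  invFun z := (z.1 + 2 * z.2, -z.1 - z.2)
  left_inv z := by ext <;> simp only <;> ring
  right_inv z := by ext <;> simp only <;> ring

/-- third change of variables -/
def eq3 : ZMod Q × ZMod Q ≃ ZMod Q × ZMod Q where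
  toFun z := (-z.2, -(z.1 + 2 * z.2))
  invFun z := (2 * z.1 - z.2, -z.1)
  left_inv z := by ext <;> simp only <;> ring
  right_inv z := by ext <;> simp only <;> ring

/-- the weighted sums of the ghost -/
def GS (Q : ℕ) [NeZero Q] (f : ℤ → ℤ) (m : ℤ) (wt : ZMod Q → ℤ) (L : ZMod Q → ZMod Q → ZMod Q) : ℤ :=
  ∑ x : ZMod Q, ∑ y : ZMod Q, fz Q f (-(Nm (m : ZMod Q) x y)) * wt (L x y)

/-- **the cone sum near the ghost** -/
theorem LLz_ghost {a b B m r : ℤ} (hr : r = 1 + B * a - m * a ^ 2)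
    (ha : ((a : ℤ) : ZMod Q) = 2) (hB : ((B : ℤ) : ZMod Q) = -1)
    (f : ℤ → ℤ) (hper : ∀ x, f (x + Q) = f x) (hodd : ∀ x, f (-x) = - f x) :
    LLz Q f a b B m r = (a - 2) * (GS Q f m γ (fun _ y => y) + GS Q f m γ (fun x y => x + y))
      - (B + 1) * GS Q f m γ (fun x _ => x) - (b + 1) * GS Q f m γ (fun x y => x + 2 * y) := by
  have hneg := fz_neg (Q := Q) hper hodd
  have f0 : fz Q f 0 = 0 := by
    have := hneg 0
    rw [neg_zero] at this
    omega
  have hr' : ((r : ℤ) : ZMod Q) = -1 - 4 * m := by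
    rw [hr]
    push_cast
    rw [ha, hB]
    ring
  -- the eight sums
  have x0 : XZ Q f m B 1
      = ∑ x : ZMod Q, ∑ y : ZMod Q, fz Q f (-(Nm (m : ZMod Q) x y)) * (β x * β y) := by
    rw [XZ_zmod hper]
    refine Finset.sum_congr rfl fun x _ => Finset.sum_congr rfl fun y _ => ?_
    congr 2
    rw [hB]
    unfold Nm
    push_cast
    ring
  have y0 : YX Q f m B 1
      = ∑ x : ZMod Q, ∑ y : ZMod Q, fz Q f (-(Nm (m : ZMod Q) x y)) * γ x := by
    rw [YX_zmod hper]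
    refine Finset.sum_congr rfl fun x _ => Finset.sum_congr rfl fun y _ => ?_
    congr 2
    rw [hB]
    unfold Nm
    push_cast
    ring
  have e1 : ∀ x y : ZMod Q, (((1 : ℤ) : ZMod Q) * (x + y) ^ 2 + (B : ZMod Q) * (x + y) * x
        - (m : ZMod Q) * x ^ 2) = Nm (m : ZMod Q) x y := by
    intro x y
    rw [hB]
    unfold Nm
    push_cast
    ring
  have x1 : XZ Q f 1 B m
      = ∑ x : ZMod Q, ∑ y : ZMod Q, fz Q f (-(Nm (m : ZMod Q) x y)) * (-(β (x + y) * β x)) := by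
    rw [XZ_zmod hper, sum2_equiv eq1]
    refine Finset.sum_congr rfl fun x _ => Finset.sum_congr rfl fun y _ => ?_
    simp only [eq1, Equiv.coe_fn_mk]
    rw [e1, hneg]
    ring
  have y1 : YX Q f 1 B m
      = ∑ x : ZMod Q, ∑ y : ZMod Q, fz Q f (-(Nm (m : ZMod Q) x y)) * (-(γ (x + y))) := by
    rw [YX_zmod hper, sum2_equiv eq1]
    refine Finset.sum_congr rfl fun x _ => Finset.sum_congr rfl fun y _ => ?_
    simp only [eq1, Equiv.coe_fn_mk]
    rw [e1, hneg]
    ring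
  have e2 : ∀ x y : ZMod Q, ((m : ZMod Q) * (-(x + 2 * y)) ^ 2
        + ((2 * a * m - B : ℤ) : ZMod Q) * (-(x + 2 * y)) * (x + y)
        - (r : ZMod Q) * (x + y) ^ 2) = -(Nm (m : ZMod Q) x y) := by
    intro x y
    push_cast
    rw [hB, ha, hr']
    unfold Nm
    ring
  have x2 : XZ Q f m (2 * a * m - B) r
      = ∑ x : ZMod Q, ∑ y : ZMod Q, fz Q f (-(Nm (m : ZMod Q) x y)) *
        (-(β (x + 2 * y) * β (x + y))) := by
    rw [XZ_zmod hper, sum2_equiv eq2]
    refine Finset.sum_congr rfl fun x _ => Finset.sum_congr rfl fun y _ => ?_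
    simp only [eq2, Equiv.coe_fn_mk]
    rw [e2, β_neg]
    ring
  have y2 : YX Q f m (2 * a * m - B) r
      = ∑ x : ZMod Q, ∑ y : ZMod Q, fz Q f (-(Nm (m : ZMod Q) x y)) * γ (x + 2 * y) := by
    rw [YX_zmod hper, sum2_equiv eq2]
    refine Finset.sum_congr rfl fun x _ => Finset.sum_congr rfl fun y _ => ?_
    simp only [eq2, Equiv.coe_fn_mk]
    rw [e2, γ_neg]
  have e3 : ∀ x y : ZMod Q, ((r : ZMod Q) * (-y) ^ 2
        + ((2 * a * m - B : ℤ) : ZMod Q) * (-y) * (-(x + 2 * y))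
        - (m : ZMod Q) * (-(x + 2 * y)) ^ 2) = Nm (m : ZMod Q) x y := by
    intro x y
    push_cast
    rw [hB, ha, hr']
    unfold Nm
    ring
  have x3 : XZ Q f r (2 * a * m - B) m
      = ∑ x : ZMod Q, ∑ y : ZMod Q, fz Q f (-(Nm (m : ZMod Q) x y)) *
        (-(β y * β (x + 2 * y))) := by
    rw [XZ_zmod hper, sum2_equiv eq3]
    refine Finset.sum_congr rfl fun x _ => Finset.sum_congr rfl fun y _ => ?_
    simp only [eq3, Equiv.coe_fn_mk]
    rw [e3, hneg, β_neg, β_neg]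
    ring
  have y3 : YX Q f r (2 * a * m - B) m
      = ∑ x : ZMod Q, ∑ y : ZMod Q, fz Q f (-(Nm (m : ZMod Q) x y)) * (-(γ y)) := by
    rw [YX_zmod hper, sum2_equiv eq3]
    refine Finset.sum_congr rfl fun x _ => Finset.sum_congr rfl fun y _ => ?_
    simp only [eq3, Equiv.coe_fn_mk]
    rw [e3, hneg, γ_neg]
    ring
  unfold LLz GS
  rw [x0, y0, x1, y1, x2, y2, x3, y3]
  rw [← sub_eq_zero]
  simp only [mul_add, Finset.mul_sum, ← Finset.sum_sub_distrib, ← Finset.sum_add_distrib]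
  apply Finset.sum_eq_zero
  intro x _
  apply Finset.sum_eq_zero
  intro y _
  by_cases h : x = 0 ∧ y = 0
  · obtain ⟨rfl, rfl⟩ := h
    have e : Nm (m : ZMod Q) (0 : ZMod Q) 0 = 0 := by unfold Nm; ring
    rw [e, neg_zero, f0]
    ring
  · have t1 := three_term h
    have h' : ¬ (x + y = 0 ∧ y = 0) := by
      rintro ⟨h1, h2⟩
      exact h ⟨by rw [h2, add_zero] at h1; exact h1, h2⟩
    have t2 := three_term h'
    have e : x + y + y = x + 2 * y := by ring
    rw [e] at t2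
    linear_combination (fz Q f (-(Nm (m : ZMod Q) x y))) * t1
      + (fz Q f (-(Nm (m : ZMod Q) x y))) * t2

/-- smoothing of a weighted sum -/
theorem GS_smooth (hQ : Q % 2 = 1) (m : ℤ) (L : ZMod Q → ZMod Q → ZMod Q)
    (hL : ∀ x y, L (2 * x) (2 * y) = 2 * L x y)
    (f : ℤ → ℤ) (hper : ∀ x, f (x + Q) = f x) :
    GS Q (fun n => 4 * f (4 * n) - f n) m γ L = 3 * Q * GS Q f m δ L := by
  unfold GS
  have hN : ∀ x y : ZMod Q, 4 * (-(Nm (m : ZMod Q) x y)) = -(Nm (m : ZMod Q) (2 * x) (2 * y)) := by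
    intro x y; unfold Nm; ring
  have e1 := sum2_equiv (eqD hQ) (fun x y : ZMod Q => fz Q f (-(Nm (m : ZMod Q) x y)) * γ (L x y))
  have e2 := sum2_equiv (eqD hQ) (fun x y : ZMod Q => fz Q f (-(Nm (m : ZMod Q) x y)) * δ (L x y))
  rw [e2]
  have e3 : ∀ x y : ZMod Q, fz Q (fun n => 4 * f (4 * n) - f n) (-(Nm (m : ZMod Q) x y)) * γ (L x y)
      = 4 * (fz Q f (-(Nm (m : ZMod Q) (2 * x) (2 * y))) * γ (L x y))
        - fz Q f (-(Nm (m : ZMod Q) x y)) * γ (L x y) := by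
    intro x y
    rw [fz_smooth hper, hN]
    ring
  simp only [e3, Finset.sum_sub_distrib, ← Finset.mul_sum]
  rw [e1]
  simp only [Finset.mul_sum, ← Finset.sum_sub_distrib, eqD, Equiv.coe_fn_mk]
  apply Finset.sum_congr rfl
  intro x _
  apply Finset.sum_congr rfl
  intro y _
  rw [hL]
  have := four_γ hQ (L x y)
  linear_combination (fz Q f (-(Nm (m : ZMod Q) (2 * x) (2 * y)))) * this

/-- **the exact ghost identity**: `(a, b, B)` are the parameters up to a common sign `s` -/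
theorem ghost_identity {a b B : ℕ} {m r : ℤ} (h : E4.Par a b B m r)
    (hm2 : m % 2 = 1) (hB2 : B % 2 = 1)
    [IsDomain (QuadraticAlgebra ℤ m (B : ℤ))]
    [UniqueFactorizationMonoid (QuadraticAlgebra ℤ m (B : ℤ))]
    {d : ℕ} (hd : (d : ℤ) = (B : ℤ) ^ 2 + 4 * m) (h8 : d % 8 = 5)
    (hQ : Q % 2 = 1) (hcop : Nat.Coprime Q d)
    {s : ℤ} (hs : s = 1 ∨ s = -1) {α' β' γ' : ℤ}
    (hα : s * a - 2 = Q * α') (hβ : s * b + 1 = Q * β') (hγ : s * B + 1 = Q * γ')
    (f : ℤ → ℤ) (hper : ∀ x, f (x + Q) = f x) (hodd : ∀ x, f (-x) = - f x) :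
    α' * (GS Q f m δ (fun _ y => y) + GS Q f m δ (fun x y => x + y))
      - γ' * GS Q f m δ (fun x _ => x) - β' * GS Q f m δ (fun x y => x + 2 * y)
      = 2 * s * RDF.HH Q d (fun x => f (4 * x)) := by
  have hQ0 : 0 < Q := Nat.pos_of_ne_zero (NeZero.ne Q)
  have hd0 : (0 : ℤ) < d := by
    have : 0 < d := by omega
    exact_mod_cast this
  have hperg : ∀ x, (fun n => 4 * f (4 * n) - f n) (x + Q) = (fun n => 4 * f (4 * n) - f n) x := by
    intro x
    have h : f (4 * (x + Q)) = f (4 * x) := by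
      rw [mul_add]
      exact per_mulZ hper (4 * x) 4
    simp only
    rw [h, hper]
  have hoddg : ∀ x, (fun n => 4 * f (4 * n) - f n) (-x) = - (fun n => 4 * f (4 * n) - f n) x := by
    intro x
    simp only
    rw [mul_neg, hodd, hodd]
    ring
  have hss : s * s = 1 := by rcases hs with rfl | rfl <;> norm_num
  have h1 := even_int m B (by have := h.hm; omega) hm2 (by exact_mod_cast hB2) (E4.cyc h) 2 rfl
    (by norm_num) (E4.closing h) (E4.P_ne h) hd h8 Q hQ0 hcop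
    (fun n => 4 * f (4 * n) - f n) hperg hoddg
  rw [RZ_smooth f hQ h8 hper hodd, LL_E4] at h1
  -- the signed version
  have h2 : LLz Q (fun n => 4 * f (4 * n) - f n) a b B m r
      = s * LLz Q (fun n => 4 * f (4 * n) - f n) (s * a) (s * b) (s * B) m r := by
    rcases hs with rfl | rfl
    · simp only [one_mul]
    · simp only [neg_mul, one_mul]
      rw [LLz_neg hperg, neg_neg]
  have hQz : ((Q : ℤ) : ZMod Q) = 0 := by rw [Int.cast_natCast]; exact ZMod.natCast_self Q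
  have ca : ((s * a : ℤ) : ZMod Q) = 2 := by
    have : s * (a : ℤ) = 2 + Q * α' := by linarith
    rw [this, Int.cast_add, Int.cast_mul, hQz]; simp
  have cB : ((s * B : ℤ) : ZMod Q) = -1 := by
    have : s * (B : ℤ) = -1 + Q * γ' := by linarith
    rw [this, Int.cast_add, Int.cast_mul, hQz]; simp
  have hr : r = 1 + (s * B) * (s * a) - m * (s * a) ^ 2 := by
    rw [h.e1]
    linear_combination (-(B : ℤ) * a + m * (a : ℤ) ^ 2) * hss
  rw [h2, LLz_ghost hr ca cB (fun n => 4 * f (4 * n) - f n) hperg hoddg,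
    GS_smooth hQ m (fun _ y => y) (fun _ _ => rfl) f hper,
    GS_smooth hQ m (fun x y => x + y) (fun x y => by ring) f hper,
    GS_smooth hQ m (fun x _ => x) (fun _ _ => rfl) f hper,
    GS_smooth hQ m (fun x y => x + 2 * y) (fun x y => by ring) f hper, hα, hβ, hγ] at h1
  have hQp : (0 : ℤ) < Q := by exact_mod_cast hQ0
  have h3 : (6 * (Q : ℤ) ^ 2 * d) * (α' * (GS Q f m δ (fun _ y => y) + GS Q f m δ (fun x y => x + y))
      - γ' * GS Q f m δ (fun x _ => x) - β' * GS Q f m δ (fun x y => x + 2 * y))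
      = (6 * (Q : ℤ) ^ 2 * d) * (2 * s * RDF.HH Q d (fun x => f (4 * x))) := by
    linear_combination s * h1 - (6 * (Q : ℤ) ^ 2 * d) * (α' * (GS Q f m δ (fun _ y => y)
      + GS Q f m δ (fun x y => x + y))
      - γ' * GS Q f m δ (fun x _ => x) - β' * GS Q f m δ (fun x y => x + 2 * y)) * hss
  exact mul_left_cancel₀ (by positivity) h3

end Pool.Agent.P4G
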