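import Pool.Agent.P4G.CC

/-!
The linear relation of a family near the ghost.
-/

namespace Pool.Agent.P4G

open Finset (range)
open Pool.Agent.LibH4 Pool.Agent.LibH4.FA Pool.Agent.Lib_helper5
open Pool.Agent.RDF (sum_range_zmod fz fz_cast δ bt two_half crt_sum)

/-- the function of a family over the integers -/
def PP (e : ℕ) (ψ : ℤ → ℤ) (u : ℤ) : ℤ := ψ u * u ^ e

variable {l q0 n e : ℕ} {ψ : ℤ → ℤ}

lemma PP_cast (u : ℤ) : ((PP e ψ u : ℤ) : ZMod (l ^ (n + 1))) = FN l n e ψ u := by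
  unfold PP FN
  push_cast
  rfl

/-- the half sum of the product vanishes -/
lemma HH_zero (h : Fam l q0 n e ψ) (d : ℕ) {f : ℤ → ℤ}
    (hf : ∀ x, ((f x : ℤ) : ZMod (l ^ (n + 1))) = FN l n e ψ x) :
    ((RDF.HH (QN l q0 n) d (fun x => f (4 * x)) : ℤ) : ZMod (l ^ (n + 1))) = 0 := by
  have h0 : ∑ r ∈ range ((QN l q0 n + 1) / 2), FN l n e ψ r = 0 := by
    have h1 : ((Hs l q0 ψ (n + 1) e : ℤ) : ZMod (l ^ (n + 1))) = 0 := by
      rw [ZMod.intCast_zmod_eq_zero_iff_dvd]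
      push_cast
      exact h.zero
    rw [← h1]
    unfold Hs QN FN
    push_cast
    rfl
  unfold RDF.HH
  push_cast
  have e1 : ∀ r ∈ range ((QN l q0 n + 1) / 2), ∑ s ∈ range ((QN l q0 n * d + 1) / 2),
      ((f (4 * ((r : ℤ) * s)) : ℤ) : ZMod (l ^ (n + 1))) *
        ((jacobiSym s d : ℤ) : ZMod (l ^ (n + 1)))
      = FN l n e ψ r * ∑ s ∈ range ((QN l q0 n * d + 1) / 2),
        FN l n e ψ 4 * FN l n e ψ s * ((jacobiSym s d : ℤ) : ZMod (l ^ (n + 1))) := by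
    intro r _
    rw [Finset.mul_sum]
    apply Finset.sum_congr rfl
    intro s _
    rw [hf, h.FN_mul, h.FN_mul]
    ring
  rw [Finset.sum_congr rfl e1, ← Finset.sum_mul, h0, zero_mul]

/-- **the linear relation** -/
theorem line (h : Fam l q0 n e ψ) {a b B : ℕ} {m r : ℤ} (hP : E4.Par a b B m r)
    (hm2 : m % 2 = 1) (hB2 : B % 2 = 1)
    [IsDomain (QuadraticAlgebra ℤ m (B : ℤ))]
    [UniqueFactorizationMonoid (QuadraticAlgebra ℤ m (B : ℤ))]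
    {d : ℕ} (hd : (d : ℤ) = (B : ℤ) ^ 2 + 4 * m) (h8 : d % 8 = 5)
    (hcop : Nat.Coprime (QN l q0 n) d)
    {s : ℤ} (hs : s = 1 ∨ s = -1) {α' β' γ' : ℤ}
    (hα : s * a - 2 = QN l q0 n * α') (hβ : s * b + 1 = QN l q0 n * β')
    (hγ : s * B + 1 = QN l q0 n * γ')
    (hm : IsUnit ((m : ℤ) : ZMod (QN l q0 n)))
    (hD : IsUnit ((1 + 4 * m : ℤ) : ZMod (QN l q0 n))) :
    (l : ℤ) ∣ (2 * α' * PP e ψ (-(1 + 4 * m)) + γ' * (PP e ψ m * PP e ψ (-(1 + 4 * m)))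
      + β' * PP e ψ m) * CR l q0 e ψ (1 + 4 * m) := by
  have hne := h.ne
  obtain ⟨f, hper, hodd, hf⟩ := exists_lift h.Modd (FN l n e ψ) h.FN_per h.FN_neg
  have key := ghost_identity hP hm2 hB2 hd h8 h.Qodd hcop hs hα hβ hγ f hper hodd
  have key2 := congrArg (Int.cast : ℤ → ZMod (l ^ (n + 1))) key
  push_cast at key2
  rw [HH_zero h d hf] at key2
  have g0 := G0_cast h hf m
  have g2 := G2_cast h hf m hD
  have gy := Gy_cast h hf m hm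
  have gxy := Gxy_cast h hf m hm
  rw [h.FN_mul] at g2 gy gxy
  have hCC := CC_eq h (1 + 4 * m)
  have fin : (((2 * α' * PP e ψ (-(1 + 4 * m)) + γ' * (PP e ψ m * PP e ψ (-(1 + 4 * m)))
      + β' * PP e ψ m) * ((l : ℤ) ^ n * CR l q0 e ψ (1 + 4 * m)) : ℤ) : ZMod (l ^ (n + 1))) = 0 := by
    rw [Int.cast_mul, ← hCC]
    push_cast
    rw [PP_cast, PP_cast]
    linear_combination (-(FN l n e ψ 4 * FN l n e ψ m * FN l n e ψ (-(1 + 4 * m)))) * key2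
      + (α' : ZMod (l ^ (n + 1))) * FN l n e ψ (-(1 + 4 * m)) * gy
      + (α' : ZMod (l ^ (n + 1))) * FN l n e ψ (-(1 + 4 * m)) * gxy
      - (γ' : ZMod (l ^ (n + 1))) * FN l n e ψ m * FN l n e ψ (-(1 + 4 * m)) * g0
      - (β' : ZMod (l ^ (n + 1))) * FN l n e ψ m * g2
  rw [ZMod.intCast_zmod_eq_zero_iff_dvd] at fin
  push_cast at fin
  obtain ⟨t, ht⟩ := fin
  have hl0 : (l : ℤ) ^ n ≠ 0 := pow_ne_zero _ (by exact_mod_cast h.hl.ne_zero)
  refine ⟨t, ?_⟩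
  apply mul_left_cancel₀ hl0
  rw [show (l : ℤ) ^ n * (l * t) = (l : ℤ) ^ (n + 1) * t by ring, ← ht]
  ring

end Pool.Agent.P4G
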