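import Pool.Agent.P4G.Fams
import Pool.Agent.P4E.Final
import Pool.Agent.Lib_helper4.P4Small

/-!
No field of period four lies in the ghost classes.
-/

namespace Pool.Agent.P4G

open Finset (range)
open Pool.Agent.LibH4 Pool.Agent.LibH4.FA Pool.Agent.Lib_helper5
open Pool.Agent.RDF (T7)
open Pool.Agent.P4E (Gh)

lemma nr5 : ∀ B m : ZMod 5, B ^ 2 = 1 → (∀ x, x ^ 2 + B * x - m ≠ 0) → (1 + 4 * m) ^ 2 = -1 := by
  decide +kernel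
lemma nr7 : ∀ B m : ZMod 7, B ^ 2 = 1 → (∀ x, x ^ 2 + B * x - m ≠ 0) → (1 + 4 * m) ^ 3 = -1 := by
  decide +kernel
lemma nr13 : ∀ B m : ZMod 13, B ^ 2 = 1 → (∀ x, x ^ 2 + B * x - m ≠ 0) →
    (1 + 4 * m) ^ 6 = -1 := by
  decide +kernel

/-- no root modulo a small prime -/
lemma no_root {a b B : ℕ} {m r : ℤ} (h : E4.Par a b B m r)
    [IsDomain (QuadraticAlgebra ℤ m (B : ℤ))]
    [UniqueFactorizationMonoid (QuadraticAlgebra ℤ m (B : ℤ))] {p : ℕ} (hp : p.Prime)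
    (h1 : (p : ℤ) < m) (hr : (p : ℤ) ≠ r) (x : ZMod p) :
    x ^ 2 + ((B : ℤ) : ZMod p) * x - ((m : ℤ) : ZMod p) ≠ 0 := by
  intro hx
  obtain ⟨y, rfl⟩ := ZMod.intCast_surjective x
  have h2 : (((y ^ 2 + B * y - m : ℤ)) : ZMod p) = 0 := by
    push_cast at hx ⊢
    exact hx
  rw [ZMod.intCast_zmod_eq_zero_iff_dvd] at h2
  exact hr (P4.eq_of_root h hp h1 y h2).symm

/-- the value of the first family -/
def v1 (x5 : ZMod 5) (x7 : ZMod 7) (x13 : ZMod 13) : ZMod 13 :=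
  (T5 x5 : ℤ) * c7 x7 * x13 ^ 7
/-- the value of the second family -/
def v2 (x5 : ZMod 5) (x7 : ZMod 7) (x13 : ZMod 13) : ZMod 13 :=
  (T5 x5 : ℤ) * s7 x7 * x13 ^ 8

lemma PP1_cast {w : ℤ} (hw : w % 13 = 3) {e : ℕ} (he : e % 12 = 7) (u : ℤ) :
    ((PP e (ψ1 w) u : ℤ) : ZMod 13) = v1 u u u := by
  unfold PP v1
  rw [Int.cast_mul, ψ1_mod hw]
  unfold ψ1 c7
  push_cast
  rw [pow_expo prime13 (m := e) (m0 := 7) (by norm_num; omega) (by omega) (by norm_num)]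

lemma PP2_cast {w : ℤ} (hw : w % 13 = 3) {e : ℕ} (he : e % 12 = 8) (u : ℤ) :
    ((PP e (ψ2 w) u : ℤ) : ZMod 13) = v2 u u u := by
  unfold PP v2
  rw [Int.cast_mul, ψ2_mod hw]
  unfold ψ2 s7
  push_cast
  rw [pow_expo prime13 (m := e) (m0 := 8) (by norm_num; omega) (by omega) (by norm_num)]

/-- the determinant of the two relations -/
def det (m5 : ZMod 5) (m7 : ZMod 7) (m13 : ZMod 13) : ZMod 13 :=
  (2 * v1 (-(1 + 4 * m5)) (-(1 + 4 * m7)) (-(1 + 4 * m13)) - (-1 - 2 * m13) *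
    (v1 m5 m7 m13 * v1 (-(1 + 4 * m5)) (-(1 + 4 * m7)) (-(1 + 4 * m13)))) *
  ((1 + 2 * (-1 - 2 * m13)) * (v2 m5 m7 m13 * v2 (-(1 + 4 * m5)) (-(1 + 4 * m7)) (-(1 + 4 * m13)))
    + v2 m5 m7 m13) -
  (2 * v2 (-(1 + 4 * m5)) (-(1 + 4 * m7)) (-(1 + 4 * m13)) - (-1 - 2 * m13) *
    (v2 m5 m7 m13 * v2 (-(1 + 4 * m5)) (-(1 + 4 * m7)) (-(1 + 4 * m13)))) *
  ((1 + 2 * (-1 - 2 * m13)) * (v1 m5 m7 m13 * v1 (-(1 + 4 * m5)) (-(1 + 4 * m7)) (-(1 + 4 * m13)))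
    + v1 m5 m7 m13)

lemma det_ne : ∀ (m5 : ZMod 5) (m7 : ZMod 7) (m13 : ZMod 13), (1 + 4 * m5) ^ 2 = -1 →
    (1 + 4 * m7) ^ 3 = -1 → (1 + 4 * m13) ^ 6 = -1 → det m5 m7 m13 ≠ 0 := by
  decide +kernel

/-- the exact power of thirteen -/
lemma exists_level {α β : ℤ} (h0 : α ≠ 0) (hα : (13 : ℤ) ∣ α) (hβ : (13 : ℤ) ∣ β) :
    ∃ n : ℕ, (13 : ℤ) ^ (n + 1) ∣ α ∧ (13 : ℤ) ^ (n + 1) ∣ β ∧
      ¬ ((13 : ℤ) ^ (n + 2) ∣ α ∧ (13 : ℤ) ^ (n + 2) ∣ β) := by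
  classical
  have hex : ∃ n : ℕ, ¬ ((13 : ℤ) ^ (n + 2) ∣ α ∧ (13 : ℤ) ^ (n + 2) ∣ β) := by
    refine ⟨α.natAbs, fun h => ?_⟩
    have h1 := Int.natAbs_dvd_natAbs.2 h.1
    rw [Int.natAbs_pow] at h1
    have h2 := Nat.le_of_dvd (Int.natAbs_pos.2 h0) h1
    have h3 : α.natAbs + 2 < (13 : ℤ).natAbs ^ (α.natAbs + 2) :=
      Nat.lt_pow_self (by norm_num)
    omega
  obtain ⟨N, hN, hmin⟩ : ∃ N : ℕ, ¬ ((13 : ℤ) ^ (N + 2) ∣ α ∧ (13 : ℤ) ^ (N + 2) ∣ β) ∧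
      ∀ k < N, ¬ ¬ ((13 : ℤ) ^ (k + 2) ∣ α ∧ (13 : ℤ) ^ (k + 2) ∣ β) :=
    ⟨Nat.find hex, Nat.find_spec hex, fun k hk => Nat.find_min hex hk⟩
  rcases Nat.eq_zero_or_pos N with hz | hz
  · subst hz
    exact ⟨0, by simpa using hα, by simpa using hβ, hN⟩
  · obtain ⟨k, rfl⟩ : ∃ k, N = k + 1 := ⟨N - 1, by omega⟩
    have := not_not.1 (hmin k (by omega))
    exact ⟨k + 1, this.1, this.2, hN⟩

/-- the ring has no unique factorisation near the ghost -/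
theorem no_ghost_aux {a b B : ℕ} {m r : ℤ} (h : E4.Par a b B m r) (hm2 : m % 2 = 1)
    (hB2 : B % 2 = 1) [IsDomain (QuadraticAlgebra ℤ m (B : ℤ))]
    [UniqueFactorizationMonoid (QuadraticAlgebra ℤ m (B : ℤ))] (ha3 : 6 ≤ a) (hm : 19 < m)
    (hr5 : ((5 : ℕ) : ℤ) ≠ r) (hr7 : ((7 : ℕ) : ℤ) ≠ r) (hr13 : ((13 : ℕ) : ℤ) ≠ r)
    {s : ℤ} (hs : s = 1 ∨ s = -1) (hα : (455 : ℤ) ∣ s * a - 2) (hβ : (455 : ℤ) ∣ s * b + 1) :
    False := by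
  have hss : s * s = 1 := by rcases hs with rfl | rfl <;> norm_num
  have e1 := h.e1
  have e2 := h.e2
  obtain ⟨α, hαd⟩ : ∃ α : ℤ, α = s * a - 2 := ⟨_, rfl⟩
  obtain ⟨β, hβd⟩ : ∃ β : ℤ, β = s * b + 1 := ⟨_, rfl⟩
  have hα0 : α ≠ 0 := by
    rcases hs with rfl | rfl
    · rw [hαd]; omega
    · rw [hαd]; omega
  rw [← hαd] at hα
  rw [← hβd] at hβ
  have d13 : (13 : ℤ) ∣ 455 := ⟨35, by norm_num⟩
  have d35 : (35 : ℤ) ∣ 455 := ⟨13, by norm_num⟩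
  obtain ⟨n, hn1, hn2, hn3⟩ := exists_level hα0 (d13.trans hα) (d13.trans hβ)
  have hcop35 : IsCoprime (35 : ℤ) (13 ^ (n + 1)) := by
    apply IsCoprime.pow_right
    exact ⟨3, -8, by norm_num⟩
  have hQ : ((QN 13 35 n : ℕ) : ℤ) = 35 * 13 ^ (n + 1) := by
    unfold QN; push_cast; rfl
  obtain ⟨α', hα'⟩ : ((QN 13 35 n : ℕ) : ℤ) ∣ α := by
    rw [hQ]; exact hcop35.mul_dvd (d35.trans hα) hn1
  obtain ⟨β', hβ'⟩ : ((QN 13 35 n : ℕ) : ℤ) ∣ β := by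
    rw [hQ]; exact hcop35.mul_dvd (d35.trans hβ) hn2
  obtain ⟨S, hS⟩ : ∃ S : ℤ, S = s * (B - m * a) := ⟨_, rfl⟩
  have hγ : s * B + 1 = β + S * (-α + 2 * β + α * β) := by
    rw [hS, hαd, hβd]
    linear_combination (-s) * e2 + s * b * e1 - s * (B - m * a) * a * b * hss
  obtain ⟨γ', hγ'⟩ : ∃ γ' : ℤ, γ' = β' + S * (-α' + 2 * β' + α' * β) := ⟨_, rfl⟩
  have hγQ : s * B + 1 = (QN 13 35 n : ℕ) * γ' := by
    rw [hγ, hγ', hα']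
    linear_combination (1 + 2 * S) * hβ'
  have h455 : (455 : ℤ) ∣ ((QN 13 35 n : ℕ) : ℤ) := by
    rw [hQ, pow_succ]
    exact ⟨13 ^ n, by ring⟩
  have hB455 : (455 : ℤ) ∣ s * B + 1 := by
    rw [hγQ]
    exact Dvd.dvd.mul_right h455 _
  -- residues modulo `5`, `7`, `13`
  have hBp : ∀ p : ℕ, (p : ℤ) ∣ 455 → ((B : ℤ) : ZMod p) ^ 2 = 1 ∧
      ((s : ℤ) : ZMod p) * ((B : ℤ) : ZMod p) = -1 ∧ ((s : ℤ) : ZMod p) * ((a : ℤ) : ZMod p) = 2 := by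
    intro p hp
    have h1 : (((s * B + 1 : ℤ)) : ZMod p) = 0 :=
      (ZMod.intCast_zmod_eq_zero_iff_dvd _ p).2 (hp.trans hB455)
    have h2 : (((s * s : ℤ)) : ZMod p) = 1 := by rw [hss]; norm_num
    have h3 : (((α : ℤ)) : ZMod p) = 0 :=
      (ZMod.intCast_zmod_eq_zero_iff_dvd _ p).2 (hp.trans hα)
    rw [hαd] at h3
    push_cast at h1 h2 h3 ⊢
    refine ⟨?_, by linear_combination h1, by linear_combination h3⟩
    linear_combination (s * (B : ZMod p) - 1) * h1 - (B : ZMod p) ^ 2 * h2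
  have p5 : Nat.Prime 5 := by norm_num
  have p7 : Nat.Prime 7 := by norm_num
  have b5 := hBp 5 ⟨91, by norm_num⟩
  have b7 := hBp 7 ⟨65, by norm_num⟩
  have b13 := hBp 13 ⟨35, by norm_num⟩
  have h5 := nr5 _ _ b5.1 (no_root h p5 (by push_cast; linarith) hr5)
  have h7 := nr7 _ _ b7.1 (no_root h p7 (by push_cast; linarith) hr7)
  have h13 := nr13 _ _ b13.1 (no_root h prime13 (by push_cast; linarith) hr13)
  obtain ⟨M, hM⟩ := Int.eq_ofNat_of_zero_le (by linarith : 0 ≤ m)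
  -- coprimality
  have cop : ∀ N : ℕ, ((N : ℕ) : ZMod 5) ≠ 0 → ((N : ℕ) : ZMod 7) ≠ 0 → ((N : ℕ) : ZMod 13) ≠ 0 →
      Nat.Coprime (QN 13 35 n) N := by
    intro N n5 n7 n13
    unfold QN
    rw [show (35 : ℕ) = 5 * 7 by norm_num]
    refine Nat.Coprime.mul_left (Nat.Coprime.mul_left ?_ ?_) (Nat.Coprime.pow_left _ ?_)
    · rw [p5.coprime_iff_not_dvd]
      intro hd
      exact n5 ((ZMod.natCast_eq_zero_iff N 5).2 hd)
    · rw [p7.coprime_iff_not_dvd]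
      intro hd
      exact n7 ((ZMod.natCast_eq_zero_iff N 7).2 hd)
    · rw [prime13.coprime_iff_not_dvd]
      intro hd
      exact n13 ((ZMod.natCast_eq_zero_iff N 13).2 hd)
  have q5 : ∀ x : ZMod 5, (1 + 4 * x) ^ 2 = -1 → x ≠ 0 ∧ 1 + 4 * x ≠ 0 := by decide
  have q7 : ∀ x : ZMod 7, (1 + 4 * x) ^ 3 = -1 → x ≠ 0 ∧ 1 + 4 * x ≠ 0 := by decide
  have q13 : ∀ x : ZMod 13, (1 + 4 * x) ^ 6 = -1 → x ≠ 0 ∧ 1 + 4 * x ≠ 0 := by decide +kernel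
  obtain ⟨m5, D5⟩ := q5 _ h5
  obtain ⟨m7, D7⟩ := q7 _ h7
  obtain ⟨m13, D13⟩ := q13 _ h13
  have hmU : IsUnit ((m : ℤ) : ZMod (QN 13 35 n)) := by
    rw [hM, Int.cast_natCast, ZMod.isUnit_iff_coprime]
    rw [hM, Int.cast_natCast] at m5 m7 m13
    exact (cop M m5 m7 m13).symm
  have hDU : IsUnit ((1 + 4 * m : ℤ) : ZMod (QN 13 35 n)) := by
    have e : (1 + 4 * m : ℤ) = ((1 + 4 * M : ℕ) : ℤ) := by rw [hM]; push_cast; rfl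
    rw [e, Int.cast_natCast, ZMod.isUnit_iff_coprime]
    rw [hM, Int.cast_natCast] at D5 D7 D13
    exact (cop (1 + 4 * M) (by push_cast; exact D5) (by push_cast; exact D7)
      (by push_cast; exact D13)).symm
  obtain ⟨d, hd⟩ : ∃ d : ℕ, d = B ^ 2 + 4 * M := ⟨_, rfl⟩
  have hdZ : (d : ℤ) = (B : ℤ) ^ 2 + 4 * m := by rw [hd, hM]; push_cast; rfl
  have h8 : d % 8 = 5 := by
    obtain ⟨k, hk⟩ : ∃ k, B = 2 * k + 1 := ⟨B / 2, by omega⟩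
    obtain ⟨j, hj⟩ : ∃ j, M = 2 * j + 1 := ⟨M / 2, by omega⟩
    have h2 : 2 ∣ k * (k + 1) := (Nat.even_mul_succ_self k).two_dvd
    obtain ⟨i, hi⟩ := h2
    have : d = 8 * (i + j) + 5 := by rw [hd, hk, hj]; linear_combination 4 * hi
    omega
  have hcop : Nat.Coprime (QN 13 35 n) d := by
    have key : ∀ p : ℕ, ((B : ℤ) : ZMod p) ^ 2 = 1 → (1 + 4 * ((m : ℤ) : ZMod p)) ≠ 0 →
        ((d : ℕ) : ZMod p) ≠ 0 := by
      intro p h1 h2 h3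
      apply h2
      have h4 : (((d : ℕ) : ℤ) : ZMod p) = 0 := by rw [Int.cast_natCast]; exact h3
      rw [hdZ] at h4
      push_cast at h1 h4 ⊢
      linear_combination h4 - h1
    exact cop d (key 5 b5.1 D5) (key 7 b7.1 D7) (key 13 b13.1 D13)
  obtain ⟨w, hw, hwn⟩ := exists_w n
  obtain ⟨f1, hf1, F1⟩ := exists_fam1 n hw hwn
  obtain ⟨f2, hf2, F2⟩ := exists_fam2 n hw hwn
  have eα : s * a - 2 = (QN 13 35 n : ℕ) * α' := by rw [← hαd]; exact hα'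
  have eβ : s * b + 1 = (QN 13 35 n : ℕ) * β' := by rw [← hβd]; exact hβ'
  have L1 := line F1 h hm2 hB2 hdZ h8 hcop hs eα eβ hγQ hmU hDU
  have L2 := line F2 h hm2 hB2 hdZ h8 hcop hs eα eβ hγQ hmU hDU
  have P13 : Prime ((13 : ℕ) : ℤ) := Nat.prime_iff_prime_int.1 prime13
  have hD5 : (((1 + 4 * m : ℤ)) : ZMod 5) ^ 2 = -1 := by push_cast; exact h5
  have hD7 : (((1 + 4 * m : ℤ)) : ZMod 7) ^ 3 = -1 := by push_cast; exact h7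
  have hD13 : (((1 + 4 * m : ℤ)) : ZMod 13) ^ 6 = -1 := by push_cast; exact h13
  have K1 := (P13.dvd_or_dvd L1).resolve_right (CR1_ne hw hf1 hD5 hD7 hD13)
  have K2 := (P13.dvd_or_dvd L2).resolve_right (CR2_ne hw hf2 hD5 hD7 hD13)
  have K1' := (ZMod.intCast_zmod_eq_zero_iff_dvd _ 13).2 K1
  have K2' := (ZMod.intCast_zmod_eq_zero_iff_dvd _ 13).2 K2
  -- `γ'` modulo thirteen
  have hS13 : ((S : ℤ) : ZMod 13) = -1 - 2 * ((m : ℤ) : ZMod 13) := by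
    rw [hS]
    have := b13.2
    push_cast at this ⊢
    linear_combination this.1 - (m : ZMod 13) * this.2
  have hβ13 : ((β : ℤ) : ZMod 13) = 0 :=
    (ZMod.intCast_zmod_eq_zero_iff_dvd _ 13).2 (by exact_mod_cast d13.trans hβ)
  have hγ13 : ((γ' : ℤ) : ZMod 13) = (β' : ZMod 13) + (-1 - 2 * ((m : ℤ) : ZMod 13)) *
      (-(α' : ZMod 13) + 2 * (β' : ZMod 13)) := by
    rw [hγ', ← hS13]
    push_cast
    rw [hβ13]
    ring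
  simp only [Int.cast_add, Int.cast_mul, PP1_cast hw hf1, PP2_cast hw hf2, hγ13] at K1' K2'
  have hdet := det_ne _ _ _ h5 h7 h13
  have hFact : Fact (Nat.Prime 13) := ⟨prime13⟩
  have ha : ((α' : ℤ) : ZMod 13) = 0 := by
    have : det ((m : ℤ) : ZMod 5) ((m : ℤ) : ZMod 7) ((m : ℤ) : ZMod 13) * ((α' : ℤ) : ZMod 13)
        = 0 := by
      unfold det
      push_cast at K1' K2' ⊢
      linear_combination ((1 + 2 * (-1 - 2 * (m : ZMod 13))) * (v2 m m m *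
        v2 (-(1 + 4 * m)) (-(1 + 4 * m)) (-(1 + 4 * m))) + v2 m m m) * K1' -
        ((1 + 2 * (-1 - 2 * (m : ZMod 13))) * (v1 m m m *
        v1 (-(1 + 4 * m)) (-(1 + 4 * m)) (-(1 + 4 * m))) + v1 m m m) * K2'
    exact (mul_eq_zero.1 this).resolve_left hdet
  have hb : ((β' : ℤ) : ZMod 13) = 0 := by
    have : det ((m : ℤ) : ZMod 5) ((m : ℤ) : ZMod 7) ((m : ℤ) : ZMod 13) * ((β' : ℤ) : ZMod 13)
        = 0 := by
      unfold det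
      push_cast at K1' K2' ⊢
      linear_combination (2 * v1 (-(1 + 4 * m)) (-(1 + 4 * m)) (-(1 + 4 * m)) -
        (-1 - 2 * (m : ZMod 13)) * (v1 m m m *
          v1 (-(1 + 4 * m)) (-(1 + 4 * m)) (-(1 + 4 * m)))) * K2' -
        (2 * v2 (-(1 + 4 * m)) (-(1 + 4 * m)) (-(1 + 4 * m)) -
        (-1 - 2 * (m : ZMod 13)) * (v2 m m m *
          v2 (-(1 + 4 * m)) (-(1 + 4 * m)) (-(1 + 4 * m)))) * K1'
    exact (mul_eq_zero.1 this).resolve_left hdet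
  obtain ⟨a1, ha1⟩ := (ZMod.intCast_zmod_eq_zero_iff_dvd α' 13).1 ha
  obtain ⟨b1, hb1⟩ := (ZMod.intCast_zmod_eq_zero_iff_dvd β' 13).1 hb
  apply hn3
  constructor
  · rw [hα', hQ, ha1]
    exact ⟨35 * a1, by push_cast; ring⟩
  · rw [hβ', hQ, hb1]
    exact ⟨35 * b1, by push_cast; ring⟩

/-- **no ghost** -/
theorem no_ghost {a b B : ℕ} {m r : ℤ} (h : E4.Par a b B m r) (hm2 : m % 2 = 1)
    (hB2 : B % 2 = 1) [IsDomain (QuadraticAlgebra ℤ m (B : ℤ))]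
    [UniqueFactorizationMonoid (QuadraticAlgebra ℤ m (B : ℤ))] (ha2 : a % 4 = 2) (ha3 : 6 ≤ a)
    (hm : 19 < m) : False := by
  obtain ⟨hr, hG⟩ := P4E.elim4e h hm2 hB2 ha2 ha3 hm
  have r5 := hr 5 (by decide)
  have r7 := hr 7 (by decide)
  have r13 := hr 13 (by decide)
  rcases hG with hG | hG
  · obtain ⟨-, -, ⟨g1, g2⟩, ⟨g3, g4⟩, g5, g6⟩ := hG
    exact no_ghost_aux h hm2 hB2 ha3 hm r5 r7 r13 (s := 1) (Or.inl rfl) (by omega) (by omega)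
  · obtain ⟨-, -, ⟨g1, g2⟩, ⟨g3, g4⟩, g5, g6⟩ := hG
    exact no_ghost_aux h hm2 hB2 ha3 hm r5 r7 r13 (s := -1) (Or.inr rfl) (by omega) (by omega)

end Pool.Agent.P4G
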